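import Pool.Agent.T2H43.WM.PDefs
import Pool.Agent.Y163.MX.Weil

/-!
# The slopes smaller than one in the part of weight two
-/

set_option autoImplicit false

namespace Pool.Agent.T2H43.WM

universe u v

open Module Pool.Agent.Y143 Pool.Agent.X302.MW Pool.Agent.Y163.MW Pool.Agent.Y163.MX

variable {Ω : Type u} [Field Ω] [CharZero Ω] {q : ℕ} {val : Ω → ℝ} {N : ℕ} {β : Fin N → Ω}
  {a : Fin N → ℕ}

section val

variable (hv : IsSlopeFunction q val)
include hv

lemma val_one : val 1 = 0 := by
  have := hv.mul 1 1 one_ne_zero one_ne_zero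
  rw [mul_one] at this
  linarith

lemma val_neg_one : val (-1) = 0 := by
  have h := hv.mul (-1) (-1) (neg_ne_zero.2 one_ne_zero) (neg_ne_zero.2 one_ne_zero)
  rw [neg_one_mul, neg_neg, val_one hv] at h
  linarith

lemma val_inv {α : Ω} (hα : α ≠ 0) : val α⁻¹ = -val α := by
  have := hv.mul α α⁻¹ hα (inv_ne_zero hα)
  rw [mul_inv_cancel₀ hα, val_one hv] at this
  linarith

lemma val_div {α γ : Ω} (hα : α ≠ 0) (hγ : γ ≠ 0) : val (α / γ) = val α - val γ := by
  rw [div_eq_mul_inv, hv.mul _ _ hα (inv_ne_zero hγ), val_inv hv hγ]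
  ring

lemma val_pow {α : Ω} (hα : α ≠ 0) (k : ℕ) : val (α ^ k) = k * val α := by
  induction k with
  | zero => simp [val_one hv]
  | succ k ih =>
    rw [pow_succ, hv.mul _ _ (pow_ne_zero _ hα) hα, ih]
    push_cast
    ring

lemma val_zpow {α : Ω} (hα : α ≠ 0) (k : ℤ) : val (α ^ k) = k * val α := by
  obtain ⟨m, rfl | rfl⟩ := Int.eq_nat_or_neg k
  · rw [zpow_natCast, val_pow hv hα]
    simp
  · rw [zpow_neg, zpow_natCast, val_inv hv (pow_ne_zero _ hα), val_pow hv hα]
    push_cast
    ring

/-- The valuation ring. -/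
def valRing : ValuationSubring Ω where
  carrier := {x | x = 0 ∨ 0 ≤ val x}
  mul_mem' := by
    rintro x y hx hy
    rcases hx with rfl | hx
    · left; rw [zero_mul]
    rcases hy with rfl | hy
    · left; rw [mul_zero]
    by_cases hx0 : x = 0
    · left; rw [hx0, zero_mul]
    by_cases hy0 : y = 0
    · left; rw [hy0, mul_zero]
    right
    rw [hv.mul x y hx0 hy0]
    positivity
  one_mem' := Or.inr (val_one hv).ge
  add_mem' := by
    rintro x y hx hy
    by_cases hx0 : x = 0
    · rw [hx0, zero_add]; exact hy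
    by_cases hy0 : y = 0
    · rw [hy0, add_zero]; exact hx
    by_cases hxy : x + y = 0
    · exact Or.inl hxy
    right
    exact (le_min (hx.resolve_left hx0) (hy.resolve_left hy0)).trans (hv.add x y hx0 hy0 hxy)
  zero_mem' := Or.inl rfl
  neg_mem' := by
    rintro x hx
    by_cases hx0 : x = 0
    · rw [hx0, neg_zero]; exact Or.inl rfl
    right
    rw [← neg_one_mul, hv.mul _ _ (neg_ne_zero.2 one_ne_zero) hx0, val_neg_one hv, zero_add]
    exact hx.resolve_left hx0
  mem_or_inv_mem' := by
    intro x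
    by_cases hx0 : x = 0
    · exact Or.inl (Or.inl hx0)
    rcases le_total 0 (val x) with h | h
    · exact Or.inl (Or.inr h)
    · right
      right
      rw [val_inv hv hx0]
      linarith

lemma mem_valRing {x : Ω} : x ∈ valRing hv ↔ x = 0 ∨ 0 ≤ val x := Iff.rfl

lemma inv_notMem (hq : (q : Ω) ≠ 0) : ((q : Ω))⁻¹ ∉ valRing hv := by
  rw [mem_valRing]
  rintro (h | h)
  · exact inv_ne_zero hq h
  · rw [val_inv hv hq, hv.norm] at h
    linarith

end val

section conj

/-- Conjugate numbers occur with the same multiplicity. -/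
lemma card_conj (hr : IsRationalSpectrum β) {γ γ' : Ω} (h : minpoly ℚ γ' = minpoly ℚ γ)
    (hγ : IsIntegral ℚ γ) :
    Nat.card {i // β i = γ'} = Nat.card {i // β i = γ} := by
  classical
  obtain ⟨P, hP⟩ := hr
  have hγ' : IsIntegral ℚ γ' := by
    by_contra hcon
    rw [minpoly.eq_zero hcon] at h
    exact minpoly.ne_zero hγ h.symm
  have key : ∀ δ : Ω, Nat.card {i // β i = δ} =
      (P.map (algebraMap ℚ Ω)).rootMultiplicity δ := by
    intro δ
    rw [hP, ← Polynomial.count_roots, Polynomial.roots_prod]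
    · simp only [Polynomial.roots_X_sub_C]
      rw [Multiset.count_bind, Finset.sum_map_val]
      simp only [Multiset.count_singleton]
      rw [Finset.sum_boole, Nat.card_eq_fintype_card, Fintype.card_subtype]
      simp only [eq_comm, Nat.cast_id]
    · exact Finset.prod_ne_zero_iff.2 fun i _ => Polynomial.X_sub_C_ne_zero _
  rw [key, key]
  exact rootMultiplicity_conj h hγ hγ'

open Classical in
/-- The average slope of the part of weight `w` is `w / 2`. -/
lemma sum_val (hq : 1 < q) (hv : IsSlopeFunction q val) (hr : IsRationalSpectrum β) (w : ℤ) :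
    2 * ∑ i ∈ Finset.univ.filter (fun i => IsWeilNumber q w (β i)), val (β i) =
      w * (Finset.univ.filter (fun i => IsWeilNumber q w (β i))).card := by
  classical
  set s := Finset.univ.filter (fun i => IsWeilNumber q w (β i)) with hs
  have hq0 : (q : Ω) ≠ 0 := Nat.cast_ne_zero.2 (by omega)
  have hqw : (q : Ω) ^ w ≠ 0 := zpow_ne_zero _ hq0
  have hT : ∀ γ ∈ s.image β, IsWeilNumber q w γ := by
    intro γ hγ
    obtain ⟨i, hi, rfl⟩ := Finset.mem_image.1 hγ
    exact (Finset.mem_filter.1 hi).2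
  have hcard : ∀ γ, IsWeilNumber q w γ → (s.filter (fun i => β i = γ)).card =
      Nat.card {i // β i = γ} := by
    intro γ hγ
    rw [Nat.card_eq_fintype_card, Fintype.card_subtype]
    congr 1
    ext i
    simp only [hs, Finset.mem_filter, Finset.mem_univ, true_and]
    exact ⟨fun h => h.2, fun h => ⟨by rw [h]; exact hγ, h⟩⟩
  have hσ : ∀ γ, IsWeilNumber q w γ → IsWeilNumber q w ((q : Ω) ^ w / γ) ∧
      Nat.card {i // β i = (q : Ω) ^ w / γ} = Nat.card {i // β i = γ} := by
    intro γ hγ
    have h1 := minpoly_conj (by omega : 0 < q) hγ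
    have h2 := card_conj hr h1 hγ.1.isIntegral
    refine ⟨⟨?_, fun z hz => hγ.2 z (by rwa [h1] at hz)⟩, h2⟩
    by_contra hcon
    have h3 : ¬ IsIntegral ℚ ((q : Ω) ^ w / γ) := fun h => hcon h.isAlgebraic
    rw [minpoly.eq_zero h3] at h1
    exact minpoly.ne_zero hγ.1.isIntegral h1.symm
  have hne : ∀ γ : Ω, IsWeilNumber q w γ → γ ≠ 0 := fun γ hγ => weil_ne_zero (by omega) hγ
  have hmem : ∀ γ, IsWeilNumber q w γ → (γ ∈ s.image β ↔ Nat.card {i // β i = γ} ≠ 0) := by
    intro γ hγ
    rw [← hcard γ hγ, Finset.card_ne_zero]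
    constructor
    · intro h
      obtain ⟨i, hi, rfl⟩ := Finset.mem_image.1 h
      exact ⟨i, Finset.mem_filter.2 ⟨hi, rfl⟩⟩
    · rintro ⟨i, hi⟩
      exact Finset.mem_image.2 ⟨i, (Finset.mem_filter.1 hi).1, (Finset.mem_filter.1 hi).2⟩
  have h1 : ∑ i ∈ s, val (β i) = ∑ γ ∈ s.image β, (Nat.card {i // β i = γ} : ℝ) * val γ := by
    rw [Finset.sum_comp val β]
    refine Finset.sum_congr rfl fun γ hγ => ?_
    rw [nsmul_eq_mul, hcard γ (hT γ hγ)]
  have h2 : (s.card : ℝ) = ∑ γ ∈ s.image β, (Nat.card {i // β i = γ} : ℝ) := by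
    have h3 := Finset.card_eq_sum_card_image β s
    rw [h3]
    push_cast
    refine Finset.sum_congr rfl fun γ hγ => ?_
    rw [hcard γ (hT γ hγ)]
  have h3 : ∑ γ ∈ s.image β, (Nat.card {i // β i = γ} : ℝ) * val γ =
      ∑ γ ∈ s.image β, (Nat.card {i // β i = γ} : ℝ) * (w - val γ) := by
    refine Finset.sum_bij' (fun γ _ => (q : Ω) ^ w / γ) (fun γ _ => (q : Ω) ^ w / γ)
      ?_ ?_ ?_ ?_ ?_
    · intro γ hγ
      have hw := hT γ hγ
      have := hσ γ hw
      rw [hmem _ this.1, this.2, ← hmem _ hw]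
      exact hγ
    · intro γ hγ
      have hw := hT γ hγ
      have := hσ γ hw
      rw [hmem _ this.1, this.2, ← hmem _ hw]
      exact hγ
    · intro γ hγ
      have := hne γ (hT γ hγ)
      field_simp
    · intro γ hγ
      have := hne γ (hT γ hγ)
      field_simp
    · intro γ hγ
      have h0 := hne γ (hT γ hγ)
      rw [(hσ γ (hT γ hγ)).2, val_div hv hqw h0, val_zpow hv hq0, hv.norm]
      ring
  have h4 : ∑ γ ∈ s.image β, (Nat.card {i // β i = γ} : ℝ) * (w - val γ) =
      w * s.card - ∑ i ∈ s, val (β i) := by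
    rw [h1, h2, Finset.mul_sum, ← Finset.sum_sub_distrib]
    refine Finset.sum_congr rfl fun γ _ => ?_
    ring
  rw [h4, ← h1] at h3
  linarith

end conj

section deficiency

/-- The sum of the `1 - s` over the slopes `s` smaller than one is at most the number of the Hodge
slopes zero. -/
lemma deficiency (h : NewtonAboveHodge val β a) :
    ∑ i, max 0 (1 - val (β i)) ≤ zeroCount a := by
  classical
  have hex : ∃ k : ℕ, ∀ i : Fin N, k ≤ (i : ℕ) → ¬ val (β i) < 1 :=
    ⟨N, fun i hi => absurd i.2 (by omega)⟩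
  set k := Nat.find hex with hk
  have hk1 : ∀ i : Fin N, k ≤ (i : ℕ) → ¬ val (β i) < 1 := Nat.find_spec hex
  have hk2 : ∀ i : Fin N, (i : ℕ) < k → val (β i) < 1 := by
    intro i hi
    have h1 := Nat.find_min hex (m := k - 1) (by omega)
    push Not at h1
    obtain ⟨j, hj, hj'⟩ := h1
    have h2 : i ≤ j := by
      rw [Fin.le_def]
      omega
    exact (h.newton_mono h2).trans_lt hj'
  have h1 : ∑ i, max 0 (1 - val (β i)) =
      ∑ i ∈ Finset.univ.filter (fun i : Fin N => (i : ℕ) < k), (1 - val (β i)) := by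
    rw [Finset.sum_filter]
    refine Finset.sum_congr rfl fun i _ => ?_
    split_ifs with hi
    · exact max_eq_right (by have := hk2 i hi; linarith)
    · exact max_eq_left (by have := hk1 i (by omega); push Not at this; linarith)
  rw [h1, Finset.sum_sub_distrib]
  have h2 := h.above k
  have h3 : ∑ i ∈ Finset.univ.filter (fun i : Fin N => (i : ℕ) < k), (1 : ℝ) -
      ∑ i ∈ Finset.univ.filter (fun i : Fin N => (i : ℕ) < k), (a i : ℝ) ≤ zeroCount a := by
    rw [← Finset.sum_sub_distrib]
    have h4 : (zeroCount a : ℝ) = ∑ i : Fin N, if a i = 0 then (1 : ℝ) else 0 := by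
      unfold zeroCount
      rw [Finset.sum_boole, Nat.card_eq_fintype_card, Fintype.card_subtype]
    rw [h4, Finset.sum_filter]
    refine Finset.sum_le_sum fun i _ => ?_
    by_cases hi : a i = 0
    · rw [if_pos hi, hi]
      split_ifs <;> norm_num
    · rw [if_neg hi]
      have : (1 : ℝ) ≤ a i := by exact_mod_cast Nat.one_le_iff_ne_zero.2 hi
      split_ifs
      · linarith
      · exact le_rfl
  linarith

/-- If `2 h^(0,3) < 2 + 2 b_0 + b_1`, where `b_w` is the number of the eigenvalues of weight `w`, then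
the slopes of weight two are at least one. -/
theorem slope_two (hq : 1 < q) (hv : IsSlopeFunction q val) (hr : IsRationalSpectrum β)
    (hN : NewtonAboveHodge val β a) (hI : IntegralSlopes q val β)
    (hc : 2 * zeroCount a < 2 + 2 * weightCount q β 0 + weightCount q β 1)
    (i : Fin N) (hi : IsWeilNumber q 2 (β i)) : 1 ≤ val (β i) := by
  classical
  set D : ℤ → ℝ := fun w =>
    ∑ i ∈ Finset.univ.filter (fun i => IsWeilNumber q w (β i)), max 0 (1 - val (β i)) with hD
  have hcount : ∀ w, (weightCount q β w : ℝ) =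
      (Finset.univ.filter (fun i => IsWeilNumber q w (β i))).card := by
    intro w
    unfold weightCount
    rw [Nat.card_eq_fintype_card, Fintype.card_subtype]
  have hlow : ∀ w : ℤ, (1 - (w : ℝ) / 2) * weightCount q β w ≤ D w := by
    intro w
    have h1 := sum_val hq hv hr w
    have h2 : ∑ i ∈ Finset.univ.filter (fun i => IsWeilNumber q w (β i)), (1 - val (β i)) ≤
        D w := Finset.sum_le_sum fun i _ => le_max_right _ _
    rw [Finset.sum_sub_distrib, Finset.sum_const, nsmul_eq_mul, mul_one, ← hcount] at h2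
    rw [← hcount] at h1
    linarith
  have htot : D 0 + D 1 + D 2 ≤ ∑ i, max 0 (1 - val (β i)) := by
    simp only [hD, Finset.sum_filter]
    rw [← Finset.sum_add_distrib, ← Finset.sum_add_distrib]
    refine Finset.sum_le_sum fun i _ => ?_
    have h0 : 0 ≤ max 0 (1 - val (β i)) := le_max_left _ _
    have e01 : ¬ (IsWeilNumber q 0 (β i) ∧ IsWeilNumber q 1 (β i)) := fun h => by
      have := weil_unique hq h.1 h.2
      omega
    have e02 : ¬ (IsWeilNumber q 0 (β i) ∧ IsWeilNumber q 2 (β i)) := fun h => by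
      have := weil_unique hq h.1 h.2
      omega
    have e12 : ¬ (IsWeilNumber q 1 (β i) ∧ IsWeilNumber q 2 (β i)) := fun h => by
      have := weil_unique hq h.1 h.2
      omega
    by_cases c0 : IsWeilNumber q 0 (β i)
    · have c1 : ¬ IsWeilNumber q 1 (β i) := fun h => e01 ⟨c0, h⟩
      have c2 : ¬ IsWeilNumber q 2 (β i) := fun h => e02 ⟨c0, h⟩
      rw [if_pos c0, if_neg c1, if_neg c2]
      linarith
    · by_cases c1 : IsWeilNumber q 1 (β i)
      · have c2 : ¬ IsWeilNumber q 2 (β i) := fun h => e12 ⟨c1, h⟩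
        rw [if_neg c0, if_pos c1, if_neg c2]
        linarith
      · rw [if_neg c0, if_neg c1]
        split_ifs <;> linarith
  -- integrality
  have hint : ∃ m : ℤ, D 2 = m := by
    set s := Finset.univ.filter (fun i => IsWeilNumber q 2 (β i)) with hs
    have h1 : D 2 = ∑ t ∈ s.image (fun i => val (β i)),
        ((s.filter (fun i => val (β i) = t)).card : ℝ) * max 0 (1 - t) := by
      show ∑ i ∈ s, max 0 (1 - val (β i)) = _
      rw [Finset.sum_comp (fun t => max 0 (1 - t)) (fun i => val (β i))]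
      refine Finset.sum_congr rfl fun t _ => ?_
      rw [nsmul_eq_mul]
    have h2 : ∀ t : ℝ, ∃ m : ℤ, ((s.filter (fun i => val (β i) = t)).card : ℝ) *
        max 0 (1 - t) = m := by
      intro t
      obtain ⟨m, hm⟩ := hI 2 t
      have h3 : (Nat.card {i // IsWeilNumber q 2 (β i) ∧ val (β i) = t}) =
          (s.filter (fun i => val (β i) = t)).card := by
        rw [Nat.card_eq_fintype_card, Fintype.card_subtype, hs, Finset.filter_filter]
      rw [h3] at hm
      rcases le_total 0 (1 - t) with ht | ht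
      · refine ⟨(s.filter (fun i => val (β i) = t)).card - m, ?_⟩
        rw [max_eq_right ht]
        push_cast
        rw [← hm]
        ring
      · refine ⟨0, ?_⟩
        rw [max_eq_left ht]
        simp
    choose m hm using h2
    refine ⟨∑ t ∈ s.image (fun i => val (β i)), m t, ?_⟩
    rw [h1]
    push_cast
    exact Finset.sum_congr rfl fun t _ => hm t
  obtain ⟨m, hm⟩ := hint
  have hdef := deficiency hN
  have l0 := hlow 0
  have l1 := hlow 1
  have hc' : 2 * (zeroCount a : ℝ) < 2 + 2 * weightCount q β 0 + weightCount q β 1 := by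
    exact_mod_cast hc
  have hlt : D 2 < 1 := by
    push_cast at l0 l1
    linarith
  have hm0 : m < 1 := by
    rw [hm] at hlt
    exact_mod_cast hlt
  have hD2 : D 2 ≤ 0 := by
    rw [hm]
    exact_mod_cast (show m ≤ 0 by omega)
  have hsum0 : ∑ i ∈ Finset.univ.filter (fun i => IsWeilNumber q 2 (β i)),
      max 0 (1 - val (β i)) = 0 :=
    le_antisymm hD2 (Finset.sum_nonneg fun i _ => le_max_left _ _)
  have h5 := (Finset.sum_eq_zero_iff_of_nonneg (fun i _ => le_max_left _ _)).1 hsum0 i
    (Finset.mem_filter.2 ⟨Finset.mem_univ _, hi⟩)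
  have h6 : 1 - val (β i) ≤ max 0 (1 - val (β i)) := le_max_right _ _
  linarith

end deficiency

end Pool.Agent.T2H43.WM
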