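import Pool.Agent.T2H43.WM.Level
import Pool.Agent.T2H43.WM.Count

/-!
# The generic fibre: finite dimension, eigenvalues, and the square of the monodromy operator
-/

set_option autoImplicit false

namespace Pool.Agent.T2H43.WM

universe u v

open Module Pool.Agent.Y143 Pool.Agent.X302.MW

variable {Ω : Type u} [Field Ω] [CharZero Ω] {Γ : Type} {n q : ℕ}

section generic

variable (X : SemistableModel.{u, v} Ω Γ n q)

lemma W_fg (k : ℕ) (w : ℤ) (h : (X.W k (w - 1)).FG) : (X.W k w).FG := by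
  classical
  have hS : (X.sp k w).FG := by
    apply Submodule.fg_of_fg_map_of_fg_inf_ker (LinearMap.snd Ω (X.V k) X.C)
    · exact IsNoetherian.noetherian _
    · have h1 : X.sp k w ⊓ LinearMap.ker (LinearMap.snd Ω (X.V k) X.C) ≤
          (X.W k (w - 1)).map (LinearMap.inl Ω (X.V k) X.C) := by
        rintro ⟨v, x⟩ ⟨hvx, hx⟩
        have hx0 : x = 0 := hx
        subst hx0
        refine ⟨v, ?_, rfl⟩
        exact (X.sp_ker k w v 0 hvx).2 (Submodule.zero_mem _)
      have h2 : ((X.W k (w - 1)).map (LinearMap.inl Ω (X.V k) X.C)).FG := h.map _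
      have := Module.Finite.iff_fg.2 h2
      have h3 : IsNoetherian Ω ((X.W k (w - 1)).map (LinearMap.inl Ω (X.V k) X.C)) :=
        inferInstance
      exact Submodule.FG.of_le h2 h1
  have h4 : X.W k w ≤ (X.sp k w).map (LinearMap.fst Ω (X.V k) X.C) := by
    intro v hv
    obtain ⟨x, hx⟩ := X.sp_left k w v hv
    exact ⟨(v, x), hx, rfl⟩
  have h5 : (X.sp k w).map (LinearMap.fst Ω (X.V k) X.C) ≤ X.W k w := by
    rintro _ ⟨⟨v, x⟩, hx, rfl⟩
    exact (X.sp_mem k w v x hx).1
  rw [le_antisymm h4 h5]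
  exact hS.map _

/-- The cohomology of the generic fibre is finite-dimensional. -/
lemma finite_V (k : ℕ) : Module.Finite Ω (X.V k) := by
  obtain ⟨w0, hw0⟩ := X.W_bot k
  obtain ⟨w1, hw1⟩ := X.W_top k
  have key : ∀ m : ℕ, (X.W k (w0 + m)).FG := by
    intro m
    induction m with
    | zero =>
      have : X.W k (w0 + (0 : ℕ)) = ⊥ := by
        rw [Nat.cast_zero, add_zero]
        exact hw0
      rw [this]
      exact Submodule.fg_bot
    | succ m ih =>
      apply W_fg
      rwa [show w0 + ((m + 1 : ℕ) : ℤ) - 1 = w0 + m by push_cast; ring]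
  rw [Module.finite_def]
  have h1 := key (w1 - w0).toNat
  have h2 : X.W k (w0 + (w1 - w0).toNat) = ⊤ := by
    rw [eq_top_iff, ← hw1]
    exact X.W_mono k (by omega)
  rwa [h2] at h1

/-- An eigenvalue on a graded piece is an eigenvalue. -/
lemma exists_eigenvector (k : ℕ) {α : Ω} (h : IsEigenvalueOn X k α) :
    ∃ v : X.V k, v ≠ 0 ∧ X.actV k X.frob v = α • v := by
  have := finite_V X k
  obtain ⟨w, v, hv, hv', hα⟩ := h
  have hst : ∀ w', ∀ x ∈ X.W k w', X.actV k X.frob x ∈ X.W k w' := by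
    intro w' x hx
    obtain ⟨y, hy⟩ := X.sp_left k _ x hx
    exact (X.sp_mem k _ _ _ (X.sp_act k _ x y X.frob hy)).1
  obtain ⟨y, -, hy0, hyα⟩ := exists_eigen (S := X.actV k X.frob)
    (X.W_mono k (by omega : w - 1 ≤ w)) (hst (w - 1)) hv hv' hα
  exact ⟨y, hy0, hyα⟩

lemma card_ne_zero_of_eigen (k : ℕ) {N : ℕ} {β : Fin N → Ω}
    (hβ : IsSpectrum (X.actV k X.frob) β) {α : Ω} (h : IsEigenvalueOn X k α) :
    ∃ i, β i = α := by
  have := finite_V X k
  obtain ⟨v, hv0, hv⟩ := exists_eigenvector X k h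
  have h1 : Nat.card {i // β i = α} ≠ 0 := by
    rw [hβ α]
    intro h0
    have h2 := Submodule.finrank_eq_zero.1 h0
    apply hv0
    have h3 : v ∈ (X.actV k X.frob).maxGenEigenspace α := by
      rw [Module.End.mem_maxGenEigenspace]
      refine ⟨1, ?_⟩
      simp [hv]
    rw [h2, Submodule.mem_bot] at h3
    exact h3
  by_contra hcon
  push Not at hcon
  have : IsEmpty {i // β i = α} := ⟨fun i => hcon i.1 i.2⟩
  exact h1 Nat.card_of_isEmpty

end generic

section weights

variable [IsAlgClosed Ω] (X : Degeneration.{u, v} Ω Γ n q)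

/-- If `W_w / W_(w-1)` is not zero on `H^k`, there is an eigenvalue of weight `w`. -/
lemma exists_weight (k : ℕ) (w : ℤ) (h : ¬ X.cocycles (k - w) w ≤ X.coboundaries (k - w) w) :
    ∃ α, IsEigenvalueOn X.toSemistableModel k α ∧ IsWeilNumber q w α := by
  have hcocyc : ∀ x ∈ X.cocycles (k - w) w, X.actC (k - w) X.frob x ∈ X.cocycles (k - w) w :=
    fun x hx => zc_stable X.toSemistableModel (k - w) w hx
  -- the Frobenius on the quotient has an eigenvector
  obtain ⟨x, hx, hxB⟩ := Set.not_subset.1 h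
  by_contra hcon
  push Not at hcon
  apply hxB
  -- decompose `x` in generalized eigenvectors
  have hcomm : ∀ g h : Unit, Commute ((fun _ : Unit => X.actC ((k : ℤ) - w) X.frob) g)
      ((fun _ : Unit => X.actC ((k : ℤ) - w) X.frob) h) := fun _ _ => Commute.refl _
  apply mem_of_prj_mem hcomm
  intro μ
  have h1 := prj_stable hcomm (p := X.cocycles (k - w) w) (fun _ x hx => hcocyc x hx) μ hx
  have h2 := prj_mem (T := fun _ : Unit => X.actC ((k : ℤ) - w) X.frob) hcomm μ x
  by_contra h3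
  have h4 : prj (fun _ : Unit => X.actC ((k : ℤ) - w) X.frob) hcomm μ x ∈
      Module.End.maxGenEigenspace (X.actC ((k : ℤ) - w) X.frob) (μ ()) := by
    unfold Wt at h2
    rw [Submodule.mem_iInf] at h2
    exact h2 ()
  obtain ⟨x', hx', hxB', hx''⟩ := exists_eigen_mod (X.actC ((k : ℤ) - w) X.frob) (μ ())
    (Z := X.cocycles (k - w) w) (B := X.coboundaries (k - w) w) hcocyc h1 h3 h4
  obtain ⟨y, hy, hy0, hyα⟩ := exists_eigen (S := X.actC ((k : ℤ) - w) X.frob)
    (X.bd_le_zc _ _) (fun x hx => X.actC_bd _ _ _ hx) hx' hxB' hx''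
  exact hcon (μ ()) (eigen_generic X.toSemistableModel k w hx' hxB' hx'')
    (X.weil_E₁ hy.1 hy0 hyα)

lemma W_le_of_exact (k : ℕ) (w : ℤ) (h : X.cocycles (k - w) w ≤ X.coboundaries (k - w) w) :
    X.W k w ≤ X.W k (w - 1) := by
  intro v hv
  obtain ⟨x, hx⟩ := X.sp_left k w v hv
  exact (X.sp_ker k w v x hx).2 (h (X.sp_mem k w v x hx).2)

lemma cocycles_neg (k : ℕ) {w : ℤ} (hw : w < 0) :
    X.cocycles (k - w) w ≤ X.coboundaries (k - w) w := by
  intro x hx
  have h0 : x = 0 := by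
    funext a
    by_cases hc : InColumn ((k : ℤ) - w) a
    · have h1 := (hx.1 a).1
      have h2 := hc.1
      rw [abs_of_nonneg (by omega)] at h2
      rw [X.gr_eq_bot a _ (Or.inl (by omega)), Submodule.mem_bot] at h1
      exact h1
    · exact (hx.1 a).2 hc
  rw [h0]
  exact Submodule.zero_mem _

/-- Duality: `E_2^(-i, k + i) = 0` if `E_2^(i, k - i) = 0`. -/
lemma exact_dual (k : ℕ) (i : ℤ) (h : X.cocycles i (k - i) ≤ X.coboundaries i (k - i)) :
    X.cocycles (-i) (k + i) ≤ X.coboundaries (-i) (k + i) := by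
  have hG := X.lefComplex
  have h1 := X.lefDual.hh_neg hG hG i ((k : ℤ) - n)
  have e1 : Zc X.diff X.tot i ((k : ℤ) - n) = X.cocycles i (k - i) := by
    rw [X.zc_eq]; congr 1; ring
  have e2 : Bd X.diff X.tot i ((k : ℤ) - n) = X.coboundaries i (k - i) := by
    rw [X.bd_eq]; congr 1; ring
  have e3 : Zc X.diff X.tot (-i) ((k : ℤ) - n) = X.cocycles (-i) (k + i) := by
    rw [X.zc_eq]; congr 1; ring
  have e4 : Bd X.diff X.tot (-i) ((k : ℤ) - n) = X.coboundaries (-i) (k + i) := by
    rw [X.bd_eq]; congr 1; ring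
  unfold hh at h1
  rw [e1, e2, e3, e4] at h1
  have h2 := Submodule.finrank_mono h
  have h3 := X.bd_le_zc (-i) (k + i)
  exact (Submodule.eq_of_le_of_finrank_le h3 (by omega)).ge

/-- If no eigenvalue on `H^3` has weight `0` or `1`, then `N ^ 2 = 0` on `H^3`. -/
lemma sq_eq_zero (h0 : ∀ α, IsEigenvalueOn X.toSemistableModel 3 α → ¬ IsWeilNumber q 0 α)
    (h1 : ∀ α, IsEigenvalueOn X.toSemistableModel 3 α → ¬ IsWeilNumber q 1 α) :
    X.N 3 ^ 2 = 0 := by
  have hlow : ∀ w : ℤ, w ≤ 1 → X.cocycles (((3 : ℕ) : ℤ) - w) w ≤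
      X.coboundaries (((3 : ℕ) : ℤ) - w) w := by
    intro w hw
    rcases lt_or_ge w 0 with hw0 | hw0
    · exact cocycles_neg X 3 hw0
    · by_contra hcon
      obtain ⟨α, hα, hα'⟩ := exists_weight X 3 w hcon
      obtain rfl | rfl : w = 0 ∨ w = 1 := by omega
      · exact h0 α hα hα'
      · exact h1 α hα hα'
  have hbot : ∀ w : ℤ, w ≤ 1 → X.W 3 w = ⊥ := by
    intro w hw
    obtain ⟨w0, hw0⟩ := X.W_bot 3
    have key : ∀ m : ℕ, ∀ w : ℤ, w ≤ 1 → w ≤ w0 + m → X.W 3 w = ⊥ := by
      intro m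
      induction m with
      | zero =>
        intro w _ hw2
        rw [eq_bot_iff, ← hw0]
        exact X.W_mono 3 (by simpa using hw2)
      | succ m ih =>
        intro w hw1 hw2
        rw [eq_bot_iff, ← ih (w - 1) (by omega) (by push_cast at hw2; omega)]
        exact W_le_of_exact X 3 w (hlow w hw1)
    exact key (w - w0).toNat w hw (by omega)
  have hhigh : ∀ w : ℤ, 5 ≤ w → X.cocycles (((3 : ℕ) : ℤ) - w) w ≤
      X.coboundaries (((3 : ℕ) : ℤ) - w) w := by
    intro w hw
    have h2 := exact_dual X 3 (w - 3) (by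
      have := hlow (6 - w) (by omega)
      rwa [show ((3 : ℕ) : ℤ) - (6 - w) = w - 3 by push_cast; ring,
        show (6 : ℤ) - w = ((3 : ℕ) : ℤ) - (w - 3) by push_cast; ring] at this)
    rwa [show -(w - 3) = ((3 : ℕ) : ℤ) - w by push_cast; ring,
      show ((3 : ℕ) : ℤ) + (w - 3) = w by push_cast; ring] at h2
  have htop : X.W 3 4 = ⊤ := by
    obtain ⟨w1, hw1⟩ := X.W_top 3
    have key : ∀ m : ℕ, ∀ w : ℤ, 4 ≤ w → w1 ≤ w + m → X.W 3 w = ⊤ := by
      intro m
      induction m with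
      | zero =>
        intro w _ hw2
        rw [eq_top_iff, ← hw1]
        exact X.W_mono 3 (by simpa using hw2)
      | succ m ih =>
        intro w hw3 hw2
        have h3 := ih (w + 1) (by omega) (by push_cast at hw2; omega)
        rw [eq_top_iff, ← h3]
        have := W_le_of_exact X 3 (w + 1) (hhigh (w + 1) (by omega))
        rwa [show w + 1 - 1 = w by ring] at this
    exact key (w1 - 4).toNat 4 le_rfl (by omega)
  have hN : ∀ w : ℤ, ∀ v ∈ X.W 3 w, X.N 3 v ∈ X.W 3 (w - 2) := by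
    intro w v hv
    obtain ⟨x, hx⟩ := X.sp_left 3 _ v hv
    exact (X.sp_mem 3 _ _ _ (X.sp_N 3 _ _ _ hx)).1
  apply LinearMap.ext
  intro v
  have h2 : v ∈ X.W 3 4 := by rw [htop]; trivial
  have h3 := hN _ _ (hN _ _ h2)
  rw [hbot _ (by norm_num), Submodule.mem_bot] at h3
  rw [pow_two, Module.End.mul_apply, h3, LinearMap.zero_apply]

end weights

section final

variable [IsAlgClosed Ω]

/-- The eigenvalues of weight two on `H^3` are Tate numbers if all their slopes, and those of their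
conjugates, are at least one. -/
theorem tate_three (X : Degeneration.{u, v} Ω Γ n q) (hq : IsPrimePow q) {val : Ω → ℝ}
    (hv : IsSlopeFunction q val) {N : ℕ} {β : Fin N → Ω} {a : Fin N → ℕ}
    (hβ : IsSpectrum (X.actV 3 X.frob) β) (hr : IsRationalSpectrum β)
    (hN : NewtonAboveHodge val β a) (hI : IntegralSlopes q val β)
    (hc : 2 * zeroCount a < 2 + 2 * weightCount q β 0 + weightCount q β 1 ∨
      zeroCount a ≤ 1 ∧ X.N 3 ^ 2 ≠ 0)
    {α : Ω} (hα : IsEigenvalueOn X.toSemistableModel 3 α) (hint : IsIntegral ℤ α)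
    (hw : IsWeilNumber q 2 α) : IsTateNumber q α := by
  classical
  have hq1 : 1 < q := hq.one_lt
  have hq0 : (q : Ω) ≠ 0 := Nat.cast_ne_zero.2 (by omega)
  have hc' : 2 * zeroCount a < 2 + 2 * weightCount q β 0 + weightCount q β 1 := by
    rcases hc with hc | ⟨hc, hN2⟩
    · exact hc
    · have h1 : 0 < weightCount q β 0 ∨ 0 < weightCount q β 1 := by
        by_contra hcon
        push Not at hcon
        apply hN2
        have key : ∀ w : ℤ, weightCount q β w ≤ 0 → ∀ α,
            IsEigenvalueOn X.toSemistableModel 3 α → ¬ IsWeilNumber q w α := by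
          intro w hw α hα hα'
          obtain ⟨i, hi⟩ := card_ne_zero_of_eigen X.toSemistableModel 3 hβ hα
          have h2 : weightCount q β w ≠ 0 := by
            unfold weightCount
            have : Nonempty {i // IsWeilNumber q w (β i)} := ⟨⟨i, by rw [hi]; exact hα'⟩⟩
            exact Nat.card_pos.ne'
          omega
        exact sq_eq_zero X (key 0 hcon.1) (key 1 hcon.2)
      omega
  apply tate_of_val hq (valRing hv) (inv_notMem hv hq0) hint hw
  intro α' hα'
  have hmin : minpoly ℚ α' = minpoly ℚ α :=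
    (minpoly.eq_of_irreducible_of_monic (minpoly.irreducible hw.1.isIntegral) hα'
      (minpoly.monic hw.1.isIntegral)).symm
  obtain ⟨i, hi⟩ := card_ne_zero_of_eigen X.toSemistableModel 3 hβ hα
  have hcard := card_conj hr hmin hw.1.isIntegral
  have h1 : Nat.card {i // β i = α'} ≠ 0 := by
    rw [hcard]
    have : Nonempty {i // β i = α} := ⟨⟨i, hi⟩⟩
    exact Nat.card_pos.ne'
  obtain ⟨j, hj⟩ : ∃ j, β j = α' := by
    by_contra hcon
    push Not at hcon
    have : IsEmpty {i // β i = α'} := ⟨fun i => hcon i.1 i.2⟩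
    exact h1 Nat.card_of_isEmpty
  have hw' : IsWeilNumber q 2 α' := by
    refine ⟨?_, fun z hz => hw.2 z (by rwa [hmin] at hz)⟩
    exact ⟨minpoly ℚ α, minpoly.ne_zero hw.1.isIntegral, hα'⟩
  have hs := slope_two hq1 hv hr hN hI hc' j (by rw [hj]; exact hw')
  rw [hj] at hs
  have hα'0 : α' ≠ 0 := Pool.Agent.Y163.MW.weil_ne_zero (by omega) hw'
  rw [mem_valRing]
  right
  rw [val_div hv hα'0 hq0, hv.norm]
  linarith

end final

end Pool.Agent.T2H43.WM
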