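import Pool.Agent.T2H43.WM.Mult

/-!
# Double strata of small geometric genus
-/

set_option autoImplicit false

namespace Pool.Agent.T2H43.WM

universe u v

open Module Pool.Agent.Y143 Pool.Agent.X302.MW

variable {Ω : Type u} [Field Ω] [CharZero Ω] {Γ : Type} {n q : ℕ}

/-- The sum of the `(1 - s) m` over the conjugates of `α` of slope `s < 1` and multiplicity `m`. -/
noncomputable def genusAt (val : Ω → ℝ) (m : Ω → ℕ) (α : Ω) : ℝ :=
  ∑ᶠ α' : {α' : Ω // Polynomial.aeval α' (minpoly ℚ α) = 0}, max 0 (1 - val α') * m α'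

/-- The multiplicity of the eigenvalue `α` of the Frobenius on `H^w(Y^(a+1))`. -/
noncomputable def stratumMult (X : SpecialFibre.{u, v} Ω Γ n q) (a : ℕ) (w : ℤ) (α : Ω) : ℕ :=
  finrank Ω (frobPart X a w α)

section genus

lemma finite_conj {α : Ω} (hα : IsIntegral ℚ α) :
    Finite {α' : Ω // Polynomial.aeval α' (minpoly ℚ α) = 0} := by
  classical
  have h0 : minpoly ℚ α ≠ 0 := minpoly.ne_zero hα
  have h1 : {α' : Ω | Polynomial.aeval α' (minpoly ℚ α) = 0}.Finite := by
    apply ((minpoly ℚ α).aroots Ω).toFinset.finite_toSet.subset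
    intro x hx
    rw [Finset.mem_coe, Multiset.mem_toFinset, Polynomial.mem_aroots]
    exact ⟨h0, hx⟩
  exact h1

lemma genusAt_nonneg (val : Ω → ℝ) (m : Ω → ℕ) (α : Ω) : 0 ≤ genusAt val m α :=
  finsum_nonneg fun _ => mul_nonneg (le_max_left _ _) (Nat.cast_nonneg _)

lemma genusAt_mono {val : Ω → ℝ} {m m' : Ω → ℕ} {α : Ω} (hα : IsIntegral ℚ α)
    (h : ∀ α', Polynomial.aeval α' (minpoly ℚ α) = 0 → m α' ≤ m' α') :
    genusAt val m α ≤ genusAt val m' α := by
  have := finite_conj hα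
  have := Fintype.ofFinite {α' : Ω // Polynomial.aeval α' (minpoly ℚ α) = 0}
  unfold genusAt
  rw [finsum_eq_sum_of_fintype, finsum_eq_sum_of_fintype]
  refine Finset.sum_le_sum fun i _ => ?_
  exact mul_le_mul_of_nonneg_left (by exact_mod_cast h i.1 i.2) (le_max_left _ _)

/-- If the sums agree, the multiplicities agree for the slopes smaller than one. -/
lemma genusAt_eq {val : Ω → ℝ} {m m' : Ω → ℕ} {α : Ω} (hα : IsIntegral ℚ α)
    (h : ∀ α', Polynomial.aeval α' (minpoly ℚ α) = 0 → m α' ≤ m' α')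
    (he : genusAt val m' α ≤ genusAt val m α) {α' : Ω}
    (hα' : Polynomial.aeval α' (minpoly ℚ α) = 0) (hv : val α' < 1) : m α' = m' α' := by
  have := finite_conj hα
  have := Fintype.ofFinite {α' : Ω // Polynomial.aeval α' (minpoly ℚ α) = 0}
  unfold genusAt at he
  rw [finsum_eq_sum_of_fintype, finsum_eq_sum_of_fintype] at he
  have hle : ∀ i ∈ (Finset.univ : Finset {α' : Ω // Polynomial.aeval α' (minpoly ℚ α) = 0}),
      max 0 (1 - val i) * (m i : ℝ) ≤ max 0 (1 - val i) * (m' i : ℝ) := fun i _ =>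
    mul_le_mul_of_nonneg_left (by exact_mod_cast h i.1 i.2) (le_max_left _ _)
  have h1 := (Finset.sum_eq_sum_iff_of_le hle).1 (le_antisymm (Finset.sum_le_sum hle) he)
    ⟨α', hα'⟩ (Finset.mem_univ _)
  have h2 : max 0 (1 - val α') ≠ 0 := by
    rw [max_eq_right (by linarith)]
    linarith
  exact_mod_cast mul_left_cancel₀ h2 h1

end genus

section main

variable [IsAlgClosed Ω]

/-- In the part of a non-Tate eigenvalue, the elements of `E_1^(1, 2)` are concentrated on
`Y^(2)`. -/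
lemma eq_single (X : SpecialFibre.{u, v} Ω Γ n q) (hI : HasIntegralFrobenius X) {α : Ω}
    (hα : ¬ IsTateNumber q α) {x : X.C} (hx : x ∈ X.E₁ 1 2)
    (hg : x ∈ Module.End.maxGenEigenspace (X.actC 1 X.frob) α) :
    x 1 ∈ frobPart X 1 2 α ∧ x = Pi.single 1 (x 1) := by
  classical
  have hq : (q : Ω) ≠ 0 := Nat.cast_ne_zero.2 X.q_ne
  constructor
  · constructor
    · have := (hx 1).1
      rwa [show (2 : ℤ) + 1 - ((1 : ℕ) : ℤ) = 2 by norm_num] at this
    · have := comp_gen X 1 hg 1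
      rwa [show (((1 : ℕ) : ℤ) - 1) / 2 = 0 by norm_num, zpow_zero, inv_one, one_mul] at this
  · funext b
    by_cases hb : b = 1
    · subst hb
      rw [Pi.single_eq_same]
    · rw [Pi.single_eq_of_ne hb]
      by_cases hc : InColumn 1 b
      · have hc2 := hc.2
        have hc1 := hc.1
        rw [abs_one] at hc1
        by_cases hb3 : b = 3
        · subst hb3
          by_contra hne
          have h3 := comp_gen X 1 hg 3
          rw [show (((3 : ℕ) : ℤ) - 1) / 2 = 1 by norm_num, zpow_one] at h3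
          have h4 := (hx 3).1
          rw [show (2 : ℤ) + 1 - ((3 : ℕ) : ℤ) = 0 by norm_num] at h4
          obtain ⟨-, k, hk, hk'⟩ := h0_root X hI 3 ⟨h4, h3⟩ hne
          exact hα (isTate_of_root hq hk hk')
        · have h5 := (hx b).1
          rw [X.gr_eq_bot b _ (Or.inl (by omega)), Submodule.mem_bot] at h5
          exact h5
      · exact (hx b).2 hc

lemma zdim_le (X : SpecialFibre.{u, v} Ω Γ n q) (hI : HasIntegralFrobenius X) {α : Ω}
    (hα : ¬ IsTateNumber q α) : zdim X 1 2 α ≤ stratumMult X 1 2 α := by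
  classical
  have h1 : X.cocycles 1 2 ⊓ Module.End.maxGenEigenspace (X.actC 1 X.frob) α ≤
      (frobPart X 1 2 α).map (LinearMap.single Ω X.H 1) := by
    rintro x ⟨hx, hg⟩
    obtain ⟨h2, h3⟩ := eq_single X hI hα hx.1 hg
    exact ⟨x 1, h2, h3.symm⟩
  exact (Submodule.finrank_mono h1).trans (Submodule.finrank_map_le _ _)

/-- The dichotomy for the part of a non-Tate eigenvalue. -/
theorem dichotomy (X : Degeneration.{u, v} Ω Γ n q) (hq : IsPrimePow q)
    (hI : HasIntegralFrobenius X.toSpecialFibre) {val : Ω → ℝ}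
    (hv : IsSlopeFunction q val) {N : ℕ} {β : Fin N → Ω}
    (hβ : IsSpectrum (X.actV 3 X.frob) β) (hr : IsRationalSpectrum β)
    (hS : ∀ α α' : Ω, AreConjugate α α' →
      stratumMult X.toSpecialFibre 1 2 α = stratumMult X.toSpecialFibre 1 2 α')
    {α : Ω} (hint : IsIntegral ℤ α) (hw : IsWeilNumber q 2 α) (hα : ¬ IsTateNumber q α)
    (hG : genusAt val (stratumMult X.toSpecialFibre 1 2) α ≤ 1)
    (hZ : ∃ m : ℤ, genusAt val (zdim X.toSpecialFibre 1 2) α = m)
    (hB : ∃ m : ℤ, genusAt val (bdim X.toSpecialFibre 1 2) α = m) :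
    (∀ α', minpoly ℚ α' = minpoly ℚ α →
      zdim X.toSpecialFibre 1 2 α' = bdim X.toSpecialFibre 1 2 α') ∨
    (∀ α', minpoly ℚ α' = minpoly ℚ α → bdim X.toSpecialFibre 1 2 α' = 0) := by
  classical
  have hq1 : 1 < q := hq.one_lt
  have hq0 : (q : Ω) ≠ 0 := Nat.cast_ne_zero.2 (by omega)
  have hQ : IsIntegral ℚ α := hw.1.isIntegral
  have hmin : ∀ α' : Ω, Polynomial.aeval α' (minpoly ℚ α) = 0 → minpoly ℚ α' = minpoly ℚ α :=
    fun α' hα' => (minpoly.eq_of_irreducible_of_monic (minpoly.irreducible hQ) hα'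
      (minpoly.monic hQ)).symm
  have haev : ∀ α' : Ω, minpoly ℚ α' = minpoly ℚ α → Polynomial.aeval α' (minpoly ℚ α) = 0 :=
    fun α' h => by rw [← h]; exact minpoly.aeval ℚ α'
  have hwt : ∀ α' : Ω, minpoly ℚ α' = minpoly ℚ α → IsWeilNumber q 2 α' := by
    intro α' h
    refine ⟨⟨minpoly ℚ α, minpoly.ne_zero hQ, haev α' h⟩, fun z hz => hw.2 z (by rwa [h] at hz)⟩
  have hintc : ∀ α' : Ω, minpoly ℚ α' = minpoly ℚ α → IsIntegral ℤ α' := by
    intro α' h
    have h1 : minpoly ℚ α = (minpoly ℤ α).map (algebraMap ℤ ℚ) :=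
      minpoly.isIntegrallyClosed_eq_field_fractions' ℚ hint
    refine ⟨minpoly ℤ α, minpoly.monic hint, ?_⟩
    have h2 := haev α' h
    rw [h1, Polynomial.aeval_map_algebraMap] at h2
    exact h2
  -- a conjugate of slope less than one
  have hnt : ∀ α' : Ω, minpoly ℚ α' = minpoly ℚ α → ¬ IsTateNumber q α' := by
    intro α' h hT
    obtain ⟨k, hk, hk'⟩ := hT
    -- `α` is a Tate number too, as it is a root of `T ^ k - q ^ k`
    apply hα
    refine ⟨k, hk, ?_⟩
    have h1 : Polynomial.aeval α' (Polynomial.X ^ k - Polynomial.C ((q : ℚ) ^ k)) = 0 := by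
      simp [hk']
    have h2 : minpoly ℚ α ∣ (Polynomial.X ^ k - Polynomial.C ((q : ℚ) ^ k)) := by
      rw [← h]
      exact minpoly.dvd ℚ α' h1
    obtain ⟨R, hR⟩ := h2
    have h3 : Polynomial.aeval α (Polynomial.X ^ k - Polynomial.C ((q : ℚ) ^ k)) = 0 := by
      rw [hR, map_mul, minpoly.aeval, zero_mul]
    simpa [sub_eq_zero] using h3
  obtain ⟨α'', hα'', hs⟩ : ∃ α'', Polynomial.aeval α'' (minpoly ℚ α) = 0 ∧ val α'' < 1 := by
    by_contra hcon
    push Not at hcon
    apply hα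
    apply tate_of_val hq (valRing hv) (inv_notMem hv hq0) hint hw
    intro α' hα'
    have h1 := hcon α' hα'
    have hα'0 : α' ≠ 0 := Pool.Agent.Y163.MW.weil_ne_zero (by omega) (hwt α' (hmin α' hα'))
    rw [mem_valRing]
    right
    rw [val_div hv hα'0 hq0, hv.norm]
    linarith
  -- the multiplicities on `H^3`
  have hmult : ∀ α' : Ω, minpoly ℚ α' = minpoly ℚ α →
      Nat.card {i // β i = α} + bdim X.toSpecialFibre 1 2 α' = zdim X.toSpecialFibre 1 2 α' := by
    intro α' h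
    have h1 := mult_eq X.toSemistableModel hq1 3 2 (hwt α' h)
    rw [show ((3 : ℕ) : ℤ) - 2 = 1 by norm_num, ← hβ α', card_conj hr h hQ] at h1
    exact h1
  have hstr : ∀ α' : Ω, minpoly ℚ α' = minpoly ℚ α →
      stratumMult X.toSpecialFibre 1 2 α' = stratumMult X.toSpecialFibre 1 2 α := fun α' h =>
    hS α' α ⟨(hwt α' h).1, hw.1, h⟩
  set e := Nat.card {i // β i = α} with he
  rcases Nat.eq_zero_or_pos e with he0 | hepos
  · left
    intro α' h
    have := hmult α' h
    omega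
  · right
    obtain ⟨mZ, hmZ⟩ := hZ
    obtain ⟨mB, hmB⟩ := hB
    have l1 : genusAt val (bdim X.toSpecialFibre 1 2) α ≤
        genusAt val (zdim X.toSpecialFibre 1 2) α :=
      genusAt_mono hQ fun α' hα' => by have := hmult α' (hmin α' hα'); omega
    have l2 : genusAt val (zdim X.toSpecialFibre 1 2) α ≤
        genusAt val (stratumMult X.toSpecialFibre 1 2) α :=
      genusAt_mono hQ fun α' hα' => zdim_le X.toSpecialFibre hI (hnt α' (hmin α' hα'))
    have l0 := genusAt_nonneg val (bdim X.toSpecialFibre 1 2) α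
    have hBZ : mB < mZ := by
      by_contra hcon
      push Not at hcon
      have h1 : genusAt val (zdim X.toSpecialFibre 1 2) α ≤
          genusAt val (bdim X.toSpecialFibre 1 2) α := by
        rw [hmZ, hmB]
        exact_mod_cast hcon
      have h2 := genusAt_eq (m := bdim X.toSpecialFibre 1 2) (m' := zdim X.toSpecialFibre 1 2) hQ
        (fun α' hα' => by have := hmult α' (hmin α' hα'); omega) h1 hα'' hs
      have h3 := hmult α'' (hmin α'' hα'')
      omega
    have hZ1 : mZ ≤ 1 := by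
      have h1 : (mZ : ℝ) ≤ 1 := by rw [← hmZ]; exact l2.trans hG
      exact_mod_cast h1
    have hB0 : 0 ≤ mB := by
      have h1 : (0 : ℝ) ≤ mB := by rw [← hmB]; exact l0
      exact_mod_cast h1
    have hmB0 : mB = 0 := by omega
    have hmZ1 : mZ = 1 := by omega
    have hb : bdim X.toSpecialFibre 1 2 α'' = 0 := by
      have h1 : genusAt val (bdim X.toSpecialFibre 1 2) α ≤ genusAt val (fun _ => 0) α := by
        rw [hmB, hmB0]
        push_cast
        exact genusAt_nonneg _ _ _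
      exact (genusAt_eq (m := fun _ => 0) (m' := bdim X.toSpecialFibre 1 2) hQ
        (fun _ _ => Nat.zero_le _) h1 hα'' hs).symm
    have hz : zdim X.toSpecialFibre 1 2 α'' = stratumMult X.toSpecialFibre 1 2 α'' := by
      apply genusAt_eq (m := zdim X.toSpecialFibre 1 2)
        (m' := stratumMult X.toSpecialFibre 1 2) hQ
        (fun α' hα' => zdim_le X.toSpecialFibre hI (hnt α' (hmin α' hα'))) _ hα'' hs
      rw [hmZ, hmZ1]
      push_cast
      exact hG
    intro α' h
    have h1 := hmult α' h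
    have h2 := hmult α'' (hmin α'' hα'')
    have h3 := zdim_le X.toSpecialFibre hI (hnt α' h)
    have h4 := hstr α' h
    have h5 := hstr α'' (hmin α'' hα'')
    omega

/-- mw purity in the degrees `k ≤ 3` and `k ≥ 2 n - 3` if every non-Tate irreducible factor of the
characteristic polynomial on `H^2(Y^(2))` has genus at most one. -/
theorem mw_genus (X : Degeneration.{u, v} Ω Γ n q) (hq : IsPrimePow q)
    (hI : HasIntegralFrobenius X.toSpecialFibre) (A : DivisorClasses X.toSpecialFibre)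
    {val : Ω → ℝ} (hv : IsSlopeFunction q val) {N : ℕ} {β : Fin N → Ω}
    (hβ : IsSpectrum (X.actV 3 X.frob) β) (hr : IsRationalSpectrum β)
    (hS : ∀ α α' : Ω, AreConjugate α α' →
      stratumMult X.toSpecialFibre 1 2 α = stratumMult X.toSpecialFibre 1 2 α')
    (hT : A.TateConj 0)
    (hG : ∀ α : Ω, IsWeilNumber q 2 α → ¬ IsTateNumber q α →
      genusAt val (stratumMult X.toSpecialFibre 1 2) α ≤ 1)
    (hZ : ∀ α : Ω, IsWeilNumber q 2 α → ∃ m : ℤ, genusAt val (zdim X.toSpecialFibre 1 2) α = m)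
    (hB : ∀ α : Ω, IsWeilNumber q 2 α → ∃ m : ℤ, genusAt val (bdim X.toSpecialFibre 1 2) α = m)
    (k : ℕ) (hk : k ≤ 3 ∨ 2 * n ≤ k + 3) :
    IsMWPure q k (X.actV k X.frob) (X.N k) := by
  classical
  have hq1 : 1 < q := hq.one_lt
  apply mw_vanish X A k
  intro a w χ h1 h2 h3
  obtain rfl : w = 2 := by omega
  obtain rfl : a = 0 := by omega
  by_cases hχ : χ X.frob * χ (X.tr X.frob) = 1
  · have hv1 : ∀ μ : Γ → Ω, ¬ VanishesAt X.toSpecialFibre (((0 : ℕ) : ℤ) + 1) ((2 : ℕ) : ℤ) μ →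
        IsIntegral ℤ (μ X.frob) ∧ IsWeilNumber q 2 (μ X.frob) := by
      intro μ hμ
      obtain ⟨-, e2, e3⟩ := eigen_of_not_vanish X.toSemistableModel hI 3 (i := ((0 : ℕ) : ℤ) + 1)
        (w := ((2 : ℕ) : ℤ)) (by norm_num) (by norm_num) hμ
      exact ⟨e2, e3⟩
    have hV : ∀ μ : Γ → Ω,
        zdim X.toSpecialFibre 1 2 (μ X.frob) = bdim X.toSpecialFibre 1 2 (μ X.frob) →
        VanishesAt X.toSpecialFibre (((0 : ℕ) : ℤ) + 1) ((2 : ℕ) : ℤ) μ := by
      intro μ hμ x hx hxW
      have hg : x ∈ Module.End.maxGenEigenspace (X.actC 1 X.frob) (μ X.frob) := by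
        have h1 : x ∈ Wt (X.actC 1) μ := by simpa using hxW
        unfold Wt at h1
        rw [Submodule.mem_iInf] at h1
        exact h1 X.frob
      have h4 : X.coboundaries 1 2 ⊓ Module.End.maxGenEigenspace (X.actC 1 X.frob) (μ X.frob) =
          X.cocycles 1 2 ⊓ Module.End.maxGenEigenspace (X.actC 1 X.frob) (μ X.frob) := by
        apply Submodule.eq_of_le_of_finrank_le (inf_le_inf_right _ (X.bd_le_zc 1 2))
        unfold zdim bdim at hμ
        rw [hμ]
      have h5 : x ∈ X.cocycles 1 2 ⊓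
          Module.End.maxGenEigenspace (X.actC 1 X.frob) (μ X.frob) := ⟨by simpa using hx, hg⟩
      rw [← h4] at h5
      simpa using h5.1
    have hD : ∀ μ : Γ → Ω, bdim X.toSpecialFibre 1 2 (μ X.frob) = 0 → ControlledAt A 0 2 μ := by
      intro μ hμ
      left
      right
      right
      show Disjoint (X.primPart (((0 : ℕ) : ℤ) + 1) ((2 : ℕ) : ℤ) μ)
        (X.coboundaries (((0 : ℕ) : ℤ) + 1) ((2 : ℕ) : ℤ))
      rw [Submodule.disjoint_def]
      intro x hx hxB
      have hg : x ∈ Module.End.maxGenEigenspace (X.actC 1 X.frob) (μ X.frob) := by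
        have h1 : x ∈ Wt (X.actC 1) μ := by simpa using hx.2
        unfold Wt at h1
        rw [Submodule.mem_iInf] at h1
        exact h1 X.frob
      have h4 : X.coboundaries 1 2 ⊓ Module.End.maxGenEigenspace (X.actC 1 X.frob) (μ X.frob) =
          ⊥ := by
        unfold bdim at hμ
        exact Submodule.finrank_eq_zero.1 hμ
      have h5 : x ∈ X.coboundaries 1 2 ⊓
          Module.End.maxGenEigenspace (X.actC 1 X.frob) (μ X.frob) := ⟨by simpa using hxB, hg⟩
      rw [h4, Submodule.mem_bot] at h5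
      exact h5
    have hA : ∀ μ : Γ → Ω, IsTateNumber q (μ X.frob) → ControlledAt A 0 2 μ := by
      intro μ hμ
      right
      right
      right
      refine ⟨rfl, fun x hx hxW => ?_⟩
      apply hT _ hμ x hx
      unfold Wt at hxW
      rw [Submodule.mem_iInf] at hxW
      exact hxW X.frob
    have hd := isTate_dual (X := X.toSpecialFibre) hχ
    have hdual : dualAt X.toSpecialFibre 2 χ X.frob = (q : Ω) ^ (2 : ℤ) / χ X.frob := by
      show (X.cyc X.frob : Ω) ^ (2 : ℤ) * χ (X.tr X.frob) = _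
      rw [X.cyc_frob, eq_inv_of_mul_eq_one_right hχ, div_eq_mul_inv]
    by_cases hα : IsTateNumber q (χ X.frob)
    · exact Or.inl ⟨hA χ hα, hA _ (hd.1 hα)⟩
    · -- non-Tate
      have hcase : ∀ μ : Γ → Ω, ¬ VanishesAt X.toSpecialFibre (((0 : ℕ) : ℤ) + 1)
          ((2 : ℕ) : ℤ) μ → ¬ IsTateNumber q (μ X.frob) →
          ControlledAt A 0 2 μ ∧ ∀ α', minpoly ℚ α' = minpoly ℚ (μ X.frob) →
            bdim X.toSpecialFibre 1 2 α' = 0 := by
        intro μ hμ hμT
        obtain ⟨e1, e2⟩ := hv1 μ hμ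
        rcases dichotomy X hq hI hv hβ hr hS e1 e2 hμT (hG _ e2 hμT) (hZ _ e2) (hB _ e2) with
          h | h
        · exact absurd (hV μ (h _ rfl)) hμ
        · exact ⟨hD μ (h _ rfl), h⟩
      by_cases hv2 : VanishesAt X.toSpecialFibre (((0 : ℕ) : ℤ) + 1) ((2 : ℕ) : ℤ) χ
      · by_cases hv3 : VanishesAt X.toSpecialFibre (((0 : ℕ) : ℤ) + 1) ((2 : ℕ) : ℤ)
          (dualAt X.toSpecialFibre 2 χ)
        · exact Or.inr ⟨hv2, hv3⟩
        · obtain ⟨c1, c2⟩ := hcase _ hv3 (fun h => hα (hd.2 h))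
          obtain ⟨-, e2⟩ := hv1 _ hv3
          have hconj := Pool.Agent.Y163.MX.minpoly_conj (by omega : 0 < q) e2
          have hχ0 : χ X.frob ≠ 0 := left_ne_zero_of_mul_eq_one hχ
          have hqΩ : (q : Ω) ≠ 0 := Nat.cast_ne_zero.2 X.q_ne
          have h6 : (q : Ω) ^ (2 : ℤ) / dualAt X.toSpecialFibre 2 χ X.frob = χ X.frob := by
            rw [hdual]
            field_simp
          rw [h6] at hconj
          exact Or.inl ⟨hD χ (c2 _ hconj), c1⟩
      · obtain ⟨c1, c2⟩ := hcase _ hv2 hα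
        obtain ⟨-, e2⟩ := hv1 _ hv2
        have hconj := Pool.Agent.Y163.MX.minpoly_conj (by omega : 0 < q) e2
        rw [← hdual] at hconj
        exact Or.inl ⟨c1, hD _ (c2 _ hconj)⟩
  · right
    refine ⟨vanishes_of_bad _ _ _ hχ, vanishes_of_bad _ _ _ ?_⟩
    show X.cyc X.frob ^ ((2 : ℕ) : ℤ) * χ (X.tr X.frob) *
      (X.cyc (X.tr X.frob) ^ ((2 : ℕ) : ℤ) * χ (X.tr (X.tr X.frob))) ≠ 1
    rw [X.tr_tr, X.cyc_tr, Units.val_inv_eq_inv_val, X.cyc_frob]
    have hqΩ : (q : Ω) ≠ 0 := Nat.cast_ne_zero.2 X.q_ne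
    intro h
    apply hχ
    rw [← h]
    have h5 : (q : Ω) ^ ((2 : ℕ) : ℤ) * ((q : Ω)⁻¹) ^ ((2 : ℕ) : ℤ) = 1 := by
      rw [← mul_zpow, mul_inv_cancel₀ hqΩ, one_zpow]
    linear_combination -(χ X.frob * χ (X.tr X.frob)) * h5

end main

end Pool.Agent.T2H43.WM
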