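import Pool.Agent.T2H43.WM.Vanish

/-!
# The third cohomology group of Hodge level one: the part of weight two
-/

namespace Pool.Agent.T2H43.WM

universe u v

open Module Pool.Agent.Y143 Pool.Agent.X302.MW

section lin

variable {Ω : Type*} [Field Ω] {C : Type*} [AddCommGroup C] [Module Ω C]

/-- The generalized eigenvalues of an operator and of its inverse are inverse to each other. -/
lemma gen_inv {S S' : Module.End Ω C} (hc : Commute S S') (h : ∀ x, S' (S x) = x) {α β : Ω}
    (hαβ : α * β ≠ 1) {x : C} {k l : ℕ} (hk : ((S - α • (1 : Module.End Ω C)) ^ k) x = 0)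
    (hl : ((S' - β • (1 : Module.End Ω C)) ^ l) x = 0) : x = 0 := by
  classical
  by_contra hx
  have hex : ∃ k, ((S - α • (1 : Module.End Ω C)) ^ k) x = 0 := ⟨k, hk⟩
  obtain ⟨j, hj⟩ : ∃ j, Nat.find hex = j + 1 := by
    rcases Nat.eq_zero_or_pos (Nat.find hex) with h0 | h0
    · have := Nat.find_spec hex
      rw [h0, pow_zero, Module.End.one_apply] at this
      exact absurd this hx
    · exact ⟨Nat.find hex - 1, by omega⟩
  set y := ((S - α • (1 : Module.End Ω C)) ^ j) x with hy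
  have hy0 : y ≠ 0 := Nat.find_min hex (by omega)
  have hSy : S y = α • y := by
    have h1 := Nat.find_spec hex
    rw [hj, pow_succ', Module.End.mul_apply, ← hy] at h1
    simpa [sub_eq_zero] using h1
  have hc2 : Commute ((S - α • (1 : Module.End Ω C)) ^ j)
      ((S' - β • (1 : Module.End Ω C)) ^ l) := by
    apply Commute.pow_pow
    apply Commute.sub_left
    · exact hc.sub_right ((Commute.one_right S).smul_right β)
    · exact (Commute.one_left _).smul_left α
  have hly : ((S' - β • (1 : Module.End Ω C)) ^ l) y = 0 := by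
    rw [hy, ← Module.End.mul_apply, ← hc2.eq, Module.End.mul_apply, hl, map_zero]
  have hα : α ≠ 0 := by
    rintro rfl
    apply hy0
    rw [← h y, hSy, zero_smul, map_zero]
  have hS'y : S' y = α⁻¹ • y := by
    have h1 := h y
    rw [hSy, map_smul] at h1
    rw [← h1, smul_smul, inv_mul_cancel₀ hα, one_smul, h1]
  have hpow : ∀ l : ℕ, ((S' - β • (1 : Module.End Ω C)) ^ l) y = (α⁻¹ - β) ^ l • y := by
    intro l
    induction l with
    | zero => simp
    | succ l ih =>
      rw [pow_succ', Module.End.mul_apply, ih, map_smul]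
      simp only [LinearMap.sub_apply, LinearMap.smul_apply, Module.End.one_apply, hS'y]
      rw [← sub_smul, smul_smul, ← pow_succ]
  rw [hpow] at hly
  rcases smul_eq_zero.1 hly with h1 | h1
  · have h2 : α⁻¹ - β = 0 := by
      by_contra hne
      exact pow_ne_zero l hne h1
    apply hαβ
    rw [← sub_eq_zero.1 h2, mul_inv_cancel₀ hα]
  · exact hy0 h1

end lin

variable {Ω : Type u} [Field Ω] [CharZero Ω] {Γ : Type} {n q : ℕ}

section special

variable (X : SpecialFibre.{u, v} Ω Γ n q)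

lemma actC_inv (r : ℤ) (x : X.C) :
    X.actC r (X.tr X.frob) (X.actC r X.frob x) = x := by
  funext a
  rw [X.actC_apply, X.actC_apply, map_smul, X.frob_inv, smul_smul, X.cyc_tr, inv_zpow,
    Units.inv_mul, one_smul]

/-- A character which does not take inverse values at the Frobenius and its inverse does not occur. -/
lemma wt_eq_zero (r : ℤ) {χ : Γ → Ω} (hχ : χ X.frob * χ (X.tr X.frob) ≠ 1) {x : X.C}
    (hx : x ∈ Wt (X.actC r) χ) : x = 0 := by
  rw [mem_Wt] at hx
  obtain ⟨k, hk⟩ := hx X.frob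
  obtain ⟨l, hl⟩ := hx (X.tr X.frob)
  exact gen_inv (X.actC_comm r X.frob (X.tr X.frob)) (actC_inv X r) hχ hk hl

lemma vanishes_of_bad (i w : ℤ) {χ : Γ → Ω} (hχ : χ X.frob * χ (X.tr X.frob) ≠ 1) :
    VanishesAt X i w χ := by
  intro x _ hx
  rw [wt_eq_zero X i hχ hx]
  exact Submodule.zero_mem _

/-- The eigenvalues of the Frobenius on the `E_1` term are algebraic integers. -/
lemma integral_E₁ (hI : HasIntegralFrobenius X) {r w : ℤ} (hr : 0 ≤ r) {α : Ω} {x : X.C}
    (hx : x ∈ X.E₁ r w) (hne : x ≠ 0) (h : X.actC r X.frob x = α • x) : IsIntegral ℤ α := by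
  obtain ⟨b, hb⟩ : ∃ b, x b ≠ 0 := by
    by_contra hcon
    push Not at hcon
    exact hne (funext hcon)
  have hc : InColumn r b := by
    by_contra hc
    exact hb ((hx b).2 hc)
  have h1 := congrFun h b
  rw [X.actC_apply, Pi.smul_apply, Units.val_zpow_eq_zpow_val, X.cyc_frob] at h1
  obtain ⟨k, hk⟩ := Int.eq_ofNat_of_zero_le (show 0 ≤ ((b : ℤ) - r) / 2 by
    have := hc.1
    rw [abs_of_nonneg hr] at this
    omega)
  rw [hk, zpow_natCast] at h1
  have hqΩ : (q : Ω) ≠ 0 := Nat.cast_ne_zero.2 X.q_ne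
  have h2 : X.act b X.frob (x b) = (((q : Ω) ^ k)⁻¹ * α) • x b := by
    rw [mul_smul, ← h1, smul_smul, inv_mul_cancel₀ (pow_ne_zero _ hqΩ), one_smul]
  have h3 := hI b _ _ _ (hx b).1 hb h2
  have h4 : α = (q : Ω) ^ k * (((q : Ω) ^ k)⁻¹ * α) := by
    rw [mul_inv_cancel_left₀ (pow_ne_zero _ hqΩ)]
  rw [h4]
  exact (isIntegral_algebraMap (R := ℤ) (x := (q : ℤ) ^ k) |>.mul h3 |> fun h => by
    simpa using h)

end special

section generic

variable [IsAlgClosed Ω] (X : SemistableModel.{u, v} Ω Γ n q)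

/-- A character occurring in `E_2^(i, w)` gives an eigenvalue of the Frobenius on `H^(i+w)` which
is an algebraic integer and a Weil number of weight `w`. -/
lemma eigen_of_not_vanish (hI : HasIntegralFrobenius X.toSpecialFibre) (k : ℕ) {i w : ℤ}
    (hi : 0 ≤ i) (hk : (k : ℤ) - w = i) {χ : Γ → Ω}
    (h : ¬ VanishesAt X.toSpecialFibre i w χ) :
    IsEigenvalueOn X k (χ X.frob) ∧ IsIntegral ℤ (χ X.frob) ∧ IsWeilNumber q w (χ X.frob) := by
  unfold VanishesAt at h
  push Not at h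
  obtain ⟨x, hx, hxW, hxB⟩ := h
  have hxg : x ∈ Module.End.maxGenEigenspace (X.actC i X.frob) (χ X.frob) := by
    have h1 : x ∈ Wt (X.actC i) χ := hxW
    unfold Wt at h1
    rw [Submodule.mem_iInf] at h1
    exact h1 X.frob
  obtain ⟨x', hx', hxB', hx''⟩ := exists_eigen_mod (X.actC i X.frob) (χ X.frob)
    (Z := X.cocycles i w) (fun x hx => zc_stable X i w hx) hx hxB hxg
  obtain ⟨y, hy, hy0, hyα⟩ := exists_eigen (S := X.actC i X.frob)
    (X.bd_le_zc _ _) (fun x hx => X.actC_bd _ _ _ hx) hx' hxB' hx''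
  refine ⟨?_, integral_E₁ X.toSpecialFibre hI hi hy.1 hy0 hyα, X.weil_E₁ hy.1 hy0 hyα⟩
  subst hk
  exact eigen_generic X k w hx' hxB' hx''

end generic

section main

variable [IsAlgClosed Ω]

/-- The slopes of the Frobenius on `H^k` of the generic fibre are at least one; `R` is the
valuation ring of `Ω`. -/
def SlopesAtLeastOne (X : SemistableModel.{u, v} Ω Γ n q) (R : ValuationSubring Ω) (k : ℕ) :
    Prop := ∀ α, IsEigenvalueOn X k α → α / q ∈ R

/-- The set of the eigenvalues of the Frobenius on `H^k` of the generic fibre is stable under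
conjugation over `ℚ` (this is the case if the characteristic polynomial has rational
coefficients). -/
def ConjugationStable (X : SemistableModel.{u, v} Ω Γ n q) (k : ℕ) : Prop :=
  ∀ α α' : Ω, IsEigenvalueOn X k α → Polynomial.aeval α' (minpoly ℚ α) = 0 →
    IsEigenvalueOn X k α'

/-- The eigenvalues of weight two on `H^3` are Tate numbers. -/
lemma tate_of_level (X : SemistableModel.{u, v} Ω Γ n q) (hq : IsPrimePow q)
    {R : ValuationSubring Ω} (hR : ((q : Ω))⁻¹ ∉ R) {k : ℕ} (h3 : SlopesAtLeastOne X R k)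
    (hc : ConjugationStable X k) {α : Ω} (hα : IsEigenvalueOn X k α) (hint : IsIntegral ℤ α)
    (hw : IsWeilNumber q 2 α) : IsTateNumber q α :=
  tate_of_val hq R hR hint hw fun α' hα' => h3 α' (hc α α' hα hα')

lemma isTate_dual {X : SpecialFibre.{u, v} Ω Γ n q} {χ : Γ → Ω}
    (hχ : χ X.frob * χ (X.tr X.frob) = 1) :
    IsTateNumber q (χ X.frob) ↔ IsTateNumber q (dualAt X 2 χ X.frob) := by
  have hqΩ : (q : Ω) ≠ 0 := Nat.cast_ne_zero.2 X.q_ne
  have h0 : χ X.frob ≠ 0 := left_ne_zero_of_mul_eq_one hχ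
  have h1 : dualAt X 2 χ X.frob = (q : Ω) ^ 2 * (χ X.frob)⁻¹ := by
    show (X.cyc X.frob : Ω) ^ (2 : ℤ) * χ (X.tr X.frob) = _
    rw [X.cyc_frob, eq_inv_of_mul_eq_one_right hχ]
    norm_cast
  rw [h1]
  constructor
  · rintro ⟨k, hk, h⟩
    refine ⟨k, hk, ?_⟩
    rw [mul_pow, inv_pow, h, ← pow_mul, ← div_eq_mul_inv, div_eq_iff (pow_ne_zero _ hqΩ),
      ← pow_add]
    congr 1
    ring
  · rintro ⟨k, hk, h⟩
    refine ⟨k, hk, ?_⟩
    rw [mul_pow, inv_pow, ← div_eq_mul_inv, div_eq_iff (pow_ne_zero _ h0), ← pow_mul,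
      show 2 * k = k + k by ring, pow_add] at h
    exact (mul_left_cancel₀ (pow_ne_zero _ hqΩ) h).symm

/-- mw purity in the degrees `k ≤ 3` and `k ≥ 2 n - 3`, if the part of weight two of `H^3` has only
Tate eigenvalues and the Tate conjecture holds for the divisors on the components. -/
theorem mw_level (X : Degeneration.{u, v} Ω Γ n q)
    (hI : HasIntegralFrobenius X.toSpecialFibre) (A : DivisorClasses X.toSpecialFibre)
    (hT : A.TateConj 0)
    (hE : ∀ α, IsEigenvalueOn X.toSemistableModel 3 α → IsIntegral ℤ α → IsWeilNumber q 2 α →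
      IsTateNumber q α) (k : ℕ) (hk : k ≤ 3 ∨ 2 * n ≤ k + 3) :
    IsMWPure q k (X.actV k X.frob) (X.N k) := by
  apply mw_vanish X A k
  intro a w χ h1 h2 h3
  obtain rfl : w = 2 := by omega
  obtain rfl : a = 0 := by omega
  by_cases hχ : χ X.frob * χ (X.tr X.frob) = 1
  · have hv : ∀ μ : Γ → Ω, ¬ IsTateNumber q (μ X.frob) →
        VanishesAt X.toSpecialFibre (((0 : ℕ) : ℤ) + 1) ((2 : ℕ) : ℤ) μ := by
      intro μ hμ
      by_contra hcon
      obtain ⟨e1, e2, e3⟩ := eigen_of_not_vanish X.toSemistableModel hI 3 (i := ((0 : ℕ) : ℤ) + 1)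
        (w := ((2 : ℕ) : ℤ)) (by norm_num) (by norm_num) hcon
      exact hμ (hE _ e1 e2 e3)
    have hA : ∀ μ : Γ → Ω, IsTateNumber q (μ X.frob) → ControlledAt A 0 2 μ := by
      intro μ hμ
      right
      right
      right
      refine ⟨rfl, fun x hx hxW => ?_⟩
      apply hT _ hμ x hx
      unfold Wt at hxW
      rw [Submodule.mem_iInf] at hxW
      exact hxW X.frob
    have hd := isTate_dual (X := X.toSpecialFibre) hχ
    by_cases hα : IsTateNumber q (χ X.frob)
    · exact Or.inl ⟨hA χ hα, hA _ (hd.1 hα)⟩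
    · exact Or.inr ⟨hv χ hα, hv _ fun h => hα (hd.2 h)⟩
  · right
    refine ⟨vanishes_of_bad _ _ _ hχ, vanishes_of_bad _ _ _ ?_⟩
    show X.cyc X.frob ^ ((2 : ℕ) : ℤ) * χ (X.tr X.frob) *
      (X.cyc (X.tr X.frob) ^ ((2 : ℕ) : ℤ) * χ (X.tr (X.tr X.frob))) ≠ 1
    rw [X.tr_tr, X.cyc_tr, Units.val_inv_eq_inv_val, X.cyc_frob]
    have hqΩ : (q : Ω) ≠ 0 := Nat.cast_ne_zero.2 X.q_ne
    intro h
    apply hχ
    rw [← h]
    have h5 : (q : Ω) ^ ((2 : ℕ) : ℤ) * ((q : Ω)⁻¹) ^ ((2 : ℕ) : ℤ) = 1 := by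
      rw [← mul_zpow, mul_inv_cancel₀ hqΩ, one_zpow]
    linear_combination -(χ X.frob * χ (X.tr X.frob)) * h5

end main

end Pool.Agent.T2H43.WM
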