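import Pool.Agent.T2H43.WM.Gen

/-!
# Multiplicities of the Frobenius eigenvalues on the generic fibre and on the second term
-/

set_option autoImplicit false

namespace Pool.Agent.T2H43.WM

universe u v

open Module Pool.Agent.Y143 Pool.Agent.X302.MW

section lin

variable {Ω : Type*} [Field Ω] {C : Type*} [AddCommGroup C] [Module Ω C] {C' : Type*}
  [AddCommGroup C'] [Module Ω C']

lemma gen_map_le {f : C →ₗ[Ω] C'} {T : Module.End Ω C} {T' : Module.End Ω C'}
    (hf : ∀ x, f (T x) = T' (f x)) {α : Ω} {x : C} (hx : x ∈ T.maxGenEigenspace α) :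
    f x ∈ T'.maxGenEigenspace α := by
  obtain ⟨k, hk⟩ := Module.End.mem_maxGenEigenspace T α x |>.1 hx
  rw [Module.End.mem_maxGenEigenspace]
  refine ⟨k, ?_⟩
  have h1 : ∀ (k : ℕ) (x : C), ((T' - α • (1 : Module.End Ω C')) ^ k) (f x) =
      f (((T - α • (1 : Module.End Ω C)) ^ k) x) := by
    intro k
    induction k with
    | zero => intro x; rfl
    | succ k ih =>
      intro x
      have h3 : (T' - α • (1 : Module.End Ω C')) (f x) =
          f ((T - α • (1 : Module.End Ω C)) x) := by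
        show T' (f x) - α • f x = f (T x - α • x)
        rw [map_sub, map_smul, hf]
      rw [pow_succ, Module.End.mul_apply, h3, ih, pow_succ, Module.End.mul_apply]
  rw [h1, hk, map_zero]

/-- Equivariant maps are exact on generalized eigenspaces. -/
lemma gen_map [IsAlgClosed Ω] [FiniteDimensional Ω C] {f : C →ₗ[Ω] C'} {T : Module.End Ω C}
    {T' : Module.End Ω C'} (hf : ∀ x, f (T x) = T' (f x)) {S : Submodule Ω C}
    (hS : ∀ x ∈ S, T x ∈ S) (α : Ω) :
    (S ⊓ T.maxGenEigenspace α).map f = S.map f ⊓ T'.maxGenEigenspace α := by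
  classical
  apply le_antisymm
  · rintro _ ⟨x, hx, rfl⟩
    exact ⟨⟨x, hx.1, rfl⟩, gen_map_le hf hx.2⟩
  · rintro _ ⟨⟨x, hx, rfl⟩, hy⟩
    have hcomm : ∀ g h : Unit, Commute ((fun _ : Unit => T) g) ((fun _ : Unit => T) h) :=
      fun _ _ => Commute.refl _
    have hWt : ∀ μ : Unit → Ω, Wt (fun _ : Unit => T) μ = T.maxGenEigenspace (μ ()) := by
      intro μ
      unfold Wt
      apply le_antisymm
      · exact iInf_le _ ()
      · exact le_iInf fun _ => le_rfl
    set P := prj (fun _ : Unit => T) hcomm (fun _ => α) with hP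
    have hPx : P x ∈ T.maxGenEigenspace α := by
      have := prj_mem (T := fun _ : Unit => T) hcomm (fun _ => α) x
      rwa [hWt] at this
    have hPS : P x ∈ S := prj_stable hcomm (p := S) (fun _ x hx => hS x hx) _ hx
    refine ⟨P x, ⟨hPS, hPx⟩, ?_⟩
    -- `z = x - P x` has components for the other eigenvalues only
    have hz : x - P x ∈ ⨆ (μ : Ω) (_ : μ ≠ α), T.maxGenEigenspace μ := by
      apply mem_of_prj_mem hcomm
      intro χ
      by_cases hχ : χ () = α
      · have hχ' : χ = fun _ => α := funext fun _ => hχ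
        have h1 : prj (fun _ : Unit => T) hcomm (fun _ => α) (P x) = P x := by
          apply prj_of_mem hcomm
          rw [hWt]
          exact hPx
        rw [hχ', map_sub, h1, ← hP, sub_self]
        exact Submodule.zero_mem _
      · have := prj_mem (T := fun _ : Unit => T) hcomm χ (x - P x)
        rw [hWt] at this
        exact Submodule.mem_iSup_of_mem (χ ()) (Submodule.mem_iSup_of_mem hχ this)
    have hfz : f (x - P x) ∈ ⨆ (μ : Ω) (_ : μ ≠ α), T'.maxGenEigenspace μ := by
      have h1 : (⨆ (μ : Ω) (_ : μ ≠ α), T.maxGenEigenspace μ) ≤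
          (⨆ (μ : Ω) (_ : μ ≠ α), T'.maxGenEigenspace μ).comap f := by
        refine iSup₂_le fun μ hμ y hy => ?_
        exact Submodule.mem_iSup_of_mem μ (Submodule.mem_iSup_of_mem hμ (gen_map_le hf hy))
      exact h1 hz
    have hfz' : f (x - P x) ∈ T'.maxGenEigenspace α := by
      rw [map_sub]
      exact Submodule.sub_mem _ hy (gen_map_le hf hPx)
    have hind : iSupIndep T'.maxGenEigenspace := Module.End.independent_maxGenEigenspace T'
    have h0 := (Submodule.disjoint_def.1 (hind α)) _ hfz' hfz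
    rw [map_sub, sub_eq_zero] at h0
    exact h0.symm

/-- The dimension of the image and of the kernel on a generalized eigenspace. -/
lemma gen_rank [IsAlgClosed Ω] [FiniteDimensional Ω C] {f : C →ₗ[Ω] C'} {T : Module.End Ω C}
    {T' : Module.End Ω C'} (hf : ∀ x, f (T x) = T' (f x)) {S : Submodule Ω C}
    (hS : ∀ x ∈ S, T x ∈ S) (α : Ω) :
    finrank Ω (S.map f ⊓ T'.maxGenEigenspace α : Submodule Ω C') +
      finrank Ω ((S ⊓ T.maxGenEigenspace α) ⊓ LinearMap.ker f : Submodule Ω C) =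
      finrank Ω (S ⊓ T.maxGenEigenspace α : Submodule Ω C) := by
  rw [← gen_map hf hS, finrank_map_add_ker]

end lin

variable {Ω : Type u} [Field Ω] [CharZero Ω] [IsAlgClosed Ω] {Γ : Type} {n q : ℕ}

section generic

variable (X : SemistableModel.{u, v} Ω Γ n q)

/-- The dimension of the generalized eigenspace of the Frobenius in `W_w` of `H^k`. -/
noncomputable def wdim (k : ℕ) (w : ℤ) (α : Ω) : ℕ :=
  finrank Ω (X.W k w ⊓ (X.actV k X.frob).maxGenEigenspace α : Submodule Ω (X.V k))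

/-- The dimension of the generalized eigenspace of the Frobenius in the cocycles. -/
noncomputable def zdim (X : SpecialFibre.{u, v} Ω Γ n q) (r w : ℤ) (α : Ω) : ℕ :=
  finrank Ω (X.cocycles r w ⊓ Module.End.maxGenEigenspace (X.actC r X.frob) α : Submodule Ω X.C)

/-- The dimension of the generalized eigenspace of the Frobenius in the coboundaries. -/
noncomputable def bdim (X : SpecialFibre.{u, v} Ω Γ n q) (r w : ℤ) (α : Ω) : ℕ :=
  finrank Ω (X.coboundaries r w ⊓ Module.End.maxGenEigenspace (X.actC r X.frob) α : Submodule Ω X.C)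

lemma wdim_step (k : ℕ) (w : ℤ) (α : Ω) :
    wdim X k w α + bdim X.toSpecialFibre (k - w) w α =
      wdim X k (w - 1) α + zdim X.toSpecialFibre (k - w) w α := by
  have := finite_V X k
  set T : Module.End Ω (X.V k × X.C) :=
    LinearMap.prodMap (X.actV k X.frob) (X.actC ((k : ℤ) - w) X.frob) with hT
  have hTa : ∀ p : X.V k × X.C, T p = (X.actV k X.frob p.1, X.actC ((k : ℤ) - w) X.frob p.2) :=
    fun p => rfl
  have hfst : ∀ p, LinearMap.fst Ω (X.V k) X.C (T p) =
      X.actV k X.frob (LinearMap.fst Ω (X.V k) X.C p) := fun p => rfl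
  have hsnd : ∀ p, LinearMap.snd Ω (X.V k) X.C (T p) =
      X.actC ((k : ℤ) - w) X.frob (LinearMap.snd Ω (X.V k) X.C p) := fun p => rfl
  set S := X.sp k w with hS
  set S' : Submodule Ω (X.V k × X.C) := S ⊓ (X.W k (w - 1)).comap (LinearMap.fst Ω (X.V k) X.C)
    with hS'
  have hSt : ∀ p ∈ S, T p ∈ S := by
    rintro ⟨v, x⟩ hp
    exact X.sp_act k w v x X.frob hp
  have hWst : ∀ w', ∀ x ∈ X.W k w', X.actV k X.frob x ∈ X.W k w' := by
    intro w' x hx
    obtain ⟨y, hy⟩ := X.sp_left k _ x hx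
    exact (X.sp_mem k _ _ _ (X.sp_act k _ x y X.frob hy)).1
  have hS't : ∀ p ∈ S', T p ∈ S' := fun p hp => ⟨hSt p hp.1, hWst _ _ hp.2⟩
  have m1 : S.map (LinearMap.fst Ω (X.V k) X.C) = X.W k w := by
    apply le_antisymm
    · rintro _ ⟨⟨v, x⟩, hx, rfl⟩
      exact (X.sp_mem k w v x hx).1
    · intro v hv
      obtain ⟨x, hx⟩ := X.sp_left k w v hv
      exact ⟨(v, x), hx, rfl⟩
  have m2 : S.map (LinearMap.snd Ω (X.V k) X.C) = X.cocycles (k - w) w := by
    apply le_antisymm
    · rintro _ ⟨⟨v, x⟩, hx, rfl⟩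
      exact (X.sp_mem k w v x hx).2
    · intro x hx
      obtain ⟨v, hv⟩ := X.sp_right k w x hx
      exact ⟨(v, x), hv, rfl⟩
  have m3 : S'.map (LinearMap.fst Ω (X.V k) X.C) = X.W k (w - 1) := by
    apply le_antisymm
    · rintro _ ⟨⟨v, x⟩, hx, rfl⟩
      exact hx.2
    · intro v hv
      obtain ⟨x, hx⟩ := X.sp_left k w v (X.W_mono k (by omega) hv)
      exact ⟨(v, x), ⟨hx, hv⟩, rfl⟩
  have m4 : S'.map (LinearMap.snd Ω (X.V k) X.C) = X.coboundaries (k - w) w := by
    apply le_antisymm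
    · rintro _ ⟨⟨v, x⟩, hx, rfl⟩
      exact (X.sp_ker k w v x hx.1).1 hx.2
    · intro x hx
      obtain ⟨v, hv⟩ := X.sp_right k w x (X.bd_le_zc _ _ hx)
      exact ⟨(v, x), ⟨hv, (X.sp_ker k w v x hv).2 hx⟩, rfl⟩
  have k1 : (S' ⊓ T.maxGenEigenspace α) ⊓ LinearMap.ker (LinearMap.fst Ω (X.V k) X.C) =
      (S ⊓ T.maxGenEigenspace α) ⊓ LinearMap.ker (LinearMap.fst Ω (X.V k) X.C) := by
    ext ⟨v, x⟩
    constructor
    · rintro ⟨⟨h1, h2⟩, h3⟩
      exact ⟨⟨h1.1, h2⟩, h3⟩
    · rintro ⟨⟨h1, h2⟩, h3⟩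
      refine ⟨⟨⟨h1, ?_⟩, h2⟩, h3⟩
      have h4 : v = 0 := h3
      show v ∈ X.W k (w - 1)
      rw [h4]
      exact Submodule.zero_mem _
  have k2 : (S' ⊓ T.maxGenEigenspace α) ⊓ LinearMap.ker (LinearMap.snd Ω (X.V k) X.C) =
      (S ⊓ T.maxGenEigenspace α) ⊓ LinearMap.ker (LinearMap.snd Ω (X.V k) X.C) := by
    ext ⟨v, x⟩
    constructor
    · rintro ⟨⟨h1, h2⟩, h3⟩
      exact ⟨⟨h1.1, h2⟩, h3⟩
    · rintro ⟨⟨h1, h2⟩, h3⟩
      refine ⟨⟨⟨h1, ?_⟩, h2⟩, h3⟩
      have h4 : x = 0 := h3
      subst h4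
      exact (X.sp_ker k w v 0 h1).2 (Submodule.zero_mem _)
  have r1 := gen_rank (S := S) hfst hSt α
  have r2 := gen_rank (S := S) hsnd hSt α
  have r3 := gen_rank (S := S') hfst hS't α
  have r4 := gen_rank (S := S') hsnd hS't α
  rw [m1] at r1
  rw [m2] at r2
  rw [m3, k1] at r3
  rw [m4, k2] at r4
  unfold wdim zdim bdim
  omega

/-- Eigenvalues which are not Weil numbers of weight `w` do not occur in `E_1^(r, w)`. -/
lemma E₁_gen_eq_zero {r w : ℤ} {α : Ω} (hα : ¬ IsWeilNumber q w α) {x : X.C} (hx : x ∈ X.E₁ r w)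
    (hg : x ∈ Module.End.maxGenEigenspace (X.actC r X.frob) α) : x = 0 := by
  by_contra hne
  obtain ⟨y, hy, hy0, h⟩ := exists_eigen_mod (X.actC r X.frob) α (Z := X.E₁ r w) (B := ⊥)
    (fun x hx => X.actC_mem X.frob hx) hx (by simpa using hne) hg
  rw [Submodule.mem_bot, sub_eq_zero] at h
  exact hα (X.weil_E₁ hy (by simpa using hy0) h)

lemma zdim_eq_zero {r w : ℤ} {α : Ω} (hα : ¬ IsWeilNumber q w α) :
    zdim X.toSpecialFibre r w α = 0 := by
  unfold zdim
  have : X.cocycles r w ⊓ Module.End.maxGenEigenspace (X.actC r X.frob) α = ⊥ := by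
    rw [eq_bot_iff]
    rintro x ⟨hx, hg⟩
    exact E₁_gen_eq_zero X hα hx.1 hg
  rw [this, finrank_bot]

lemma bdim_le_zdim (r w : ℤ) (α : Ω) :
    bdim X.toSpecialFibre r w α ≤ zdim X.toSpecialFibre r w α :=
  Submodule.finrank_mono (inf_le_inf_right _ (X.bd_le_zc r w))

/-- The multiplicity of an eigenvalue of weight `w` on `H^k` is its multiplicity on
`E_2^(k - w, w)`. -/
theorem mult_eq (hq : 1 < q) (k : ℕ) (w : ℤ) {α : Ω} (hα : IsWeilNumber q w α) :
    finrank Ω ((X.actV k X.frob).maxGenEigenspace α) + bdim X.toSpecialFibre (k - w) w α =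
      zdim X.toSpecialFibre (k - w) w α := by
  have hstep : ∀ w' : ℤ, w' ≠ w → wdim X k w' α = wdim X k (w' - 1) α := by
    intro w' hw'
    have hne : ¬ IsWeilNumber q w' α := fun h =>
      hw' (Pool.Agent.Y163.MW.weil_unique hq h hα)
    have h1 := wdim_step X k w' α
    have h2 := zdim_eq_zero X (r := (k : ℤ) - w') hne
    have h3 := bdim_le_zdim X ((k : ℤ) - w') w' α
    omega
  obtain ⟨w0, hw0⟩ := X.W_bot k
  obtain ⟨w1, hw1⟩ := X.W_top k
  have hlow : wdim X k (w - 1) α = 0 := by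
    have key : ∀ m : ℕ, ∀ w' : ℤ, w' < w → w' ≤ w0 + m → wdim X k w' α = 0 := by
      intro m
      induction m with
      | zero =>
        intro w' _ h2
        have h3 : X.W k w' = ⊥ := by
          rw [eq_bot_iff, ← hw0]
          exact X.W_mono k (by simpa using h2)
        unfold wdim
        rw [h3, bot_inf_eq, finrank_bot]
      | succ m ih =>
        intro w' h1 h2
        rw [hstep w' (by omega)]
        exact ih (w' - 1) (by omega) (by push_cast at h2; omega)
    exact key (w - 1 - w0).toNat (w - 1) (by omega) (by omega)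
  have hhigh : wdim X k w α = finrank Ω ((X.actV k X.frob).maxGenEigenspace α) := by
    have key : ∀ m : ℕ, ∀ w' : ℤ, w ≤ w' → w1 ≤ w' + m →
        wdim X k w' α = finrank Ω ((X.actV k X.frob).maxGenEigenspace α) := by
      intro m
      induction m with
      | zero =>
        intro w' _ h2
        have h3 : X.W k w' = ⊤ := by
          rw [eq_top_iff, ← hw1]
          exact X.W_mono k (by simpa using h2)
        unfold wdim
        rw [h3, top_inf_eq]
      | succ m ih =>
        intro w' h1 h2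
        have h3 := hstep (w' + 1) (by omega)
        rw [show w' + 1 - 1 = w' by ring] at h3
        rw [← h3]
        exact ih (w' + 1) (by omega) (by push_cast at h2; omega)
    exact key (w1 - w).toNat w le_rfl (by omega)
  have h1 := wdim_step X k w α
  rw [hlow, hhigh] at h1
  omega

end generic

end Pool.Agent.T2H43.WM
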