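import Pool.Agent.X302.MW.SDefs

/-!
# Slopes, Hodge slopes and rationality of the Frobenius eigenvalues on Hyodo-Kato cohomology
-/

set_option autoImplicit false

namespace Pool.Agent.T2H43.WM

universe u v

open Module Pool.Agent.Y143 Pool.Agent.X302.MW

section

variable {Ω : Type u} [Field Ω]

/-- `val` is a valuation of `Ω`, normalized by `val q = 1`. -/
structure IsSlopeFunction (q : ℕ) (val : Ω → ℝ) : Prop where
  mul : ∀ α β, α ≠ 0 → β ≠ 0 → val (α * β) = val α + val β
  add : ∀ α β, α ≠ 0 → β ≠ 0 → α + β ≠ 0 → min (val α) (val β) ≤ val (α + β)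
  norm : val (q : Ω) = 1

/-- `β` is the family of the eigenvalues of `Φ` with their multiplicities. -/
def IsSpectrum {V : Type v} [AddCommGroup V] [Module Ω V] (Φ : Module.End Ω V) {N : ℕ}
    (β : Fin N → Ω) : Prop :=
  ∀ γ, Nat.card {i // β i = γ} = finrank Ω (Φ.maxGenEigenspace γ)

/-- The polynomial `∏ (T - β i)` has rational coefficients. -/
def IsRationalSpectrum [CharZero Ω] {N : ℕ} (β : Fin N → Ω) : Prop :=
  ∃ P : Polynomial ℚ, P.map (algebraMap ℚ Ω) = ∏ i, (Polynomial.X - Polynomial.C (β i))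

/-- The Newton polygon (of the slopes of the `β i`) lies above the Hodge polygon (of the Hodge
slopes `a i`) and has the same end point; both families are listed in increasing order. -/
structure NewtonAboveHodge (val : Ω → ℝ) {N : ℕ} (β : Fin N → Ω) (a : Fin N → ℕ) : Prop where
  newton_mono : Monotone fun i => val (β i)
  hodge_mono : Monotone a
  above : ∀ k : ℕ, ∑ i ∈ Finset.univ.filter (fun i : Fin N => (i : ℕ) < k), (a i : ℝ) ≤
    ∑ i ∈ Finset.univ.filter (fun i : Fin N => (i : ℕ) < k), val (β i)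
  end_point : ∑ i, (a i : ℝ) = ∑ i, val (β i)

/-- Dieudonné-Manin: in the part of weight `w`, a slope `s` occurs with a multiplicity `m` such
that `s * m` is an integer. -/
def IntegralSlopes [CharZero Ω] (q : ℕ) (val : Ω → ℝ) {N : ℕ} (β : Fin N → Ω) : Prop :=
  ∀ (w : ℤ) (s : ℝ), ∃ m : ℤ,
    s * Nat.card {i // IsWeilNumber q w (β i) ∧ val (β i) = s} = m

/-- The number of the `β i` of weight `w`. -/
noncomputable def weightCount [CharZero Ω] (q : ℕ) {N : ℕ} (β : Fin N → Ω) (w : ℤ) : ℕ :=
  Nat.card {i // IsWeilNumber q w (β i)}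

/-- The number of the Hodge slopes equal to zero. -/
noncomputable def zeroCount {N : ℕ} (a : Fin N → ℕ) : ℕ := Nat.card {i // a i = 0}

end

end Pool.Agent.T2H43.WM
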