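import Pool.Agent.T2H43.WM.Gen

/-!
# The weight polygon lies above the Hodge polygon; weight-monodromy in all degrees
-/

set_option autoImplicit false

namespace Pool.Agent.T2H43.WM

universe u v

open Module Pool.Agent.Y143 Pool.Agent.X302.MW Pool.Agent.Y163.MW Pool.Agent.Y163.MX

section count

variable {Ω : Type u} [Field Ω] [CharZero Ω] {q : ℕ} {val : Ω → ℝ} {N : ℕ} {β : Fin N → Ω}
  {a : Fin N → ℕ}

omit [Field Ω] [CharZero Ω] in
/-- The inequality for the positive parts. -/
lemma pos_part_le (h : NewtonAboveHodge val β a) (t : ℝ) :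
    ∑ i, max 0 (t - val (β i)) ≤ ∑ i, max 0 (t - a i) := by
  classical
  have hex : ∃ k : ℕ, ∀ i : Fin N, k ≤ (i : ℕ) → ¬ val (β i) < t :=
    ⟨N, fun i hi => absurd i.2 (by omega)⟩
  set k := Nat.find hex with hk
  have hk1 : ∀ i : Fin N, k ≤ (i : ℕ) → ¬ val (β i) < t := Nat.find_spec hex
  have hk2 : ∀ i : Fin N, (i : ℕ) < k → val (β i) < t := by
    intro i hi
    have h1 := Nat.find_min hex (m := k - 1) (by omega)
    push Not at h1
    obtain ⟨j, hj, hj'⟩ := h1
    have h2 : i ≤ j := by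
      rw [Fin.le_def]
      omega
    exact (h.newton_mono h2).trans_lt hj'
  have h1 : ∑ i, max 0 (t - val (β i)) =
      ∑ i ∈ Finset.univ.filter (fun i : Fin N => (i : ℕ) < k), (t - val (β i)) := by
    rw [Finset.sum_filter]
    refine Finset.sum_congr rfl fun i _ => ?_
    split_ifs with hi
    · exact max_eq_right (by have := hk2 i hi; linarith)
    · exact max_eq_left (by have := hk1 i (by omega); push Not at this; linarith)
  rw [h1, Finset.sum_sub_distrib]
  have h2 := h.above k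
  have h3 : ∑ i ∈ Finset.univ.filter (fun i : Fin N => (i : ℕ) < k), t -
      ∑ i ∈ Finset.univ.filter (fun i : Fin N => (i : ℕ) < k), (a i : ℝ) ≤
        ∑ i, max 0 (t - a i) := by
    rw [← Finset.sum_sub_distrib, Finset.sum_filter]
    refine Finset.sum_le_sum fun i _ => ?_
    split_ifs
    · exact le_max_right _ _
    · exact le_max_left _ _
  linarith

open Classical in
lemma weightCount_eq (w : ℤ) : (weightCount q β w : ℝ) =
    (Finset.univ.filter (fun i => IsWeilNumber q w (β i))).card := by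
  unfold weightCount
  rw [Nat.card_eq_fintype_card, Fintype.card_subtype]

/-- If `∑ (j - 2 a)^+ ≤ j b_0 + (j - 1) b_1 + (j - 2) b_2`, no eigenvalue has a weight `w` with
`3 ≤ w < j`. -/
theorem count_eq_zero (hq : 1 < q) (hv : IsSlopeFunction q val) (hr : IsRationalSpectrum β)
    (hN : NewtonAboveHodge val β a) {j : ℕ} (hj : 2 ≤ j)
    (hc : ∑ i, (j - 2 * a i) ≤ j * weightCount q β 0 + (j - 1) * weightCount q β 1 +
      (j - 2) * weightCount q β 2) {w : ℤ} (hw3 : 3 ≤ w) (hwj : w < j) :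
    weightCount q β w = 0 := by
  classical
  set t : ℝ := (j : ℝ) / 2 with ht
  set S : ℤ → ℝ := fun w =>
    ∑ i ∈ Finset.univ.filter (fun i => IsWeilNumber q w (β i)), (t - val (β i)) with hS
  have hSw : ∀ w : ℤ, S w = (t - w / 2) * weightCount q β w := by
    intro w
    have h1 := sum_val hq hv hr w
    simp only [hS]
    rw [Finset.sum_sub_distrib, Finset.sum_const, nsmul_eq_mul, weightCount_eq]
    linarith
  have htot : S 0 + S 1 + S 2 + S w ≤ ∑ i, max 0 (t - val (β i)) := by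
    simp only [hS, Finset.sum_filter]
    rw [← Finset.sum_add_distrib, ← Finset.sum_add_distrib, ← Finset.sum_add_distrib]
    refine Finset.sum_le_sum fun i _ => ?_
    have h0 : 0 ≤ max 0 (t - val (β i)) := le_max_left _ _
    have h1 : t - val (β i) ≤ max 0 (t - val (β i)) := le_max_right _ _
    have hu : ∀ w w' : ℤ, w ≠ w' → IsWeilNumber q w (β i) → ¬ IsWeilNumber q w' (β i) :=
      fun w w' hne h h' => hne (weil_unique hq h h')
    by_cases c0 : IsWeilNumber q 0 (β i)
    · rw [if_pos c0, if_neg (hu 0 1 (by norm_num) c0), if_neg (hu 0 2 (by norm_num) c0),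
        if_neg (hu 0 w (by omega) c0)]
      linarith
    · by_cases c1 : IsWeilNumber q 1 (β i)
      · rw [if_neg c0, if_pos c1, if_neg (hu 1 2 (by norm_num) c1),
          if_neg (hu 1 w (by omega) c1)]
        linarith
      · by_cases c2 : IsWeilNumber q 2 (β i)
        · rw [if_neg c0, if_neg c1, if_pos c2, if_neg (hu 2 w (by omega) c2)]
          linarith
        · rw [if_neg c0, if_neg c1, if_neg c2]
          split_ifs <;> linarith
  have h1 := pos_part_le hN t
  have h2 : 2 * ∑ i, max 0 (t - a i) = ((∑ i, (j - 2 * a i) : ℕ) : ℝ) := by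
    push_cast
    rw [Finset.mul_sum]
    refine Finset.sum_congr rfl fun i _ => ?_
    rcases le_total (2 * a i) j with h | h
    · rw [max_eq_right, Nat.cast_sub h, ht]
      · push_cast
        ring
      · have : (2 * a i : ℝ) ≤ j := by exact_mod_cast h
        rw [ht]
        linarith
    · rw [max_eq_left, Nat.sub_eq_zero_of_le h]
      · simp
      · have : (j : ℝ) ≤ 2 * a i := by exact_mod_cast h
        rw [ht]
        linarith
  have hc' : ((∑ i, (j - 2 * a i) : ℕ) : ℝ) ≤ j * weightCount q β 0 +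
      (j - 1) * weightCount q β 1 + (j - 2) * weightCount q β 2 := by
    have h3 : ((∑ i, (j - 2 * a i) : ℕ) : ℝ) ≤ ((j * weightCount q β 0 +
      (j - 1) * weightCount q β 1 + (j - 2) * weightCount q β 2 : ℕ) : ℝ) := by
      exact_mod_cast hc
    rw [Nat.cast_add, Nat.cast_add, Nat.cast_mul, Nat.cast_mul, Nat.cast_mul,
      Nat.cast_sub (by omega), Nat.cast_sub hj] at h3
    exact_mod_cast h3
  rw [hSw, hSw, hSw, hSw] at htot
  have h4 : (t - w / 2) * weightCount q β w ≤ 0 := by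
    push_cast at htot
    rw [ht] at htot ⊢
    linarith
  have h5 : (0 : ℝ) < t - w / 2 := by
    have : (w : ℝ) < j := by exact_mod_cast hwj
    rw [ht]
    linarith
  have h6 : (weightCount q β w : ℝ) ≤ 0 := by
    by_contra hcon
    push Not at hcon
    have := mul_pos h5 hcon
    linarith
  exact_mod_cast le_antisymm h6 (Nat.cast_nonneg _)

end count

variable {Ω : Type u} [Field Ω] [CharZero Ω] [IsAlgClosed Ω] {Γ : Type} {n q : ℕ}

/-- The eigenvalues of weight two on `H^j` are Tate numbers. -/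
theorem tate_deg (X : Degeneration.{u, v} Ω Γ n q) (hq : IsPrimePow q) {val : Ω → ℝ}
    (hv : IsSlopeFunction q val) (j : ℕ) {N : ℕ} {β : Fin N → Ω} {a : Fin N → ℕ}
    (hβ : IsSpectrum (X.actV j X.frob) β) (hr : IsRationalSpectrum β)
    (hN : NewtonAboveHodge val β a) (hI : IntegralSlopes q val β)
    (hc : 2 * zeroCount a < 2 + 2 * weightCount q β 0 + weightCount q β 1)
    {α : Ω} (hα : IsEigenvalueOn X.toSemistableModel j α) (hint : IsIntegral ℤ α)
    (hw : IsWeilNumber q 2 α) : IsTateNumber q α := by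
  classical
  have hq1 : 1 < q := hq.one_lt
  have hq0 : (q : Ω) ≠ 0 := Nat.cast_ne_zero.2 (by omega)
  apply tate_of_val hq (valRing hv) (inv_notMem hv hq0) hint hw
  intro α' hα'
  have hmin : minpoly ℚ α' = minpoly ℚ α :=
    (minpoly.eq_of_irreducible_of_monic (minpoly.irreducible hw.1.isIntegral) hα'
      (minpoly.monic hw.1.isIntegral)).symm
  obtain ⟨i, hi⟩ := card_ne_zero_of_eigen X.toSemistableModel j hβ hα
  have hcard := card_conj hr hmin hw.1.isIntegral
  have h1 : Nat.card {i // β i = α'} ≠ 0 := by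
    rw [hcard]
    have : Nonempty {i // β i = α} := ⟨⟨i, hi⟩⟩
    exact Nat.card_pos.ne'
  obtain ⟨l, hl⟩ : ∃ l, β l = α' := by
    by_contra hcon
    push Not at hcon
    have : IsEmpty {i // β i = α'} := ⟨fun i => hcon i.1 i.2⟩
    exact h1 Nat.card_of_isEmpty
  have hw' : IsWeilNumber q 2 α' := by
    refine ⟨?_, fun z hz => hw.2 z (by rwa [hmin] at hz)⟩
    exact ⟨minpoly ℚ α, minpoly.ne_zero hw.1.isIntegral, hα'⟩
  have hs := slope_two hq1 hv hr hN hI hc l (by rw [hl]; exact hw')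
  rw [hl] at hs
  have hα'0 : α' ≠ 0 := weil_ne_zero (by omega) hw'
  rw [mem_valRing]
  right
  rw [val_div hv hα'0 hq0, hv.norm]
  linarith

/-- mw purity of `H^k` if the weights `w` of the `H^j`, `j ≤ min(k, 2 n - k)`, with `2 ≤ w < j` are
equal to two and the eigenvalues of weight two are Tate numbers. -/
theorem mw_all (X : Degeneration.{u, v} Ω Γ n q)
    (hI : HasIntegralFrobenius X.toSpecialFibre) (A : DivisorClasses X.toSpecialFibre) (k : ℕ)
    (hT : ∀ a : ℕ, a + 3 ≤ k → A.TateConj a)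
    (hE : ∀ (j w : ℕ) (α : Ω), 3 ≤ j → j ≤ k → j + k ≤ 2 * n → 2 ≤ w → w < j →
      IsEigenvalueOn X.toSemistableModel j α → IsIntegral ℤ α → IsWeilNumber q w α →
      w = 2 ∧ IsTateNumber q α) :
    IsMWPure q k (X.actV k X.frob) (X.N k) := by
  apply mw_vanish X A k
  intro a w χ h1 h2 h3
  by_cases hχ : χ X.frob * χ (X.tr X.frob) = 1
  · have hv : ∀ μ : Γ → Ω, ¬ (w = 2 ∧ IsTateNumber q (μ X.frob)) →
        VanishesAt X.toSpecialFibre ((a : ℤ) + 1) (w : ℤ) μ := by
      intro μ hμ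
      by_contra hcon
      obtain ⟨e1, e2, e3⟩ := eigen_of_not_vanish X.toSemistableModel hI (a + 1 + w)
        (i := (a : ℤ) + 1) (w := (w : ℤ)) (by positivity) (by push_cast; ring) hcon
      exact hμ (hE (a + 1 + w) w _ (by omega) h2 (by omega) h1 (by omega) e1 e2 e3)
    by_cases hw : w = 2
    · subst hw
      have hA : ∀ μ : Γ → Ω, IsTateNumber q (μ X.frob) → ControlledAt A a 2 μ := by
        intro μ hμ
        right
        right
        right
        refine ⟨rfl, fun x hx hxW => ?_⟩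
        apply hT a (by omega) _ hμ x hx
        unfold Wt at hxW
        rw [Submodule.mem_iInf] at hxW
        exact hxW X.frob
      have hd := isTate_dual (X := X.toSpecialFibre) hχ
      by_cases hα : IsTateNumber q (χ X.frob)
      · exact Or.inl ⟨hA χ hα, hA _ (hd.1 hα)⟩
      · exact Or.inr ⟨hv χ fun h => hα h.2, hv _ fun h => hα (hd.2 h.2)⟩
    · exact Or.inr ⟨hv χ fun h => hw h.1, hv _ fun h => hw h.1⟩
  · right
    refine ⟨vanishes_of_bad _ _ _ hχ, vanishes_of_bad _ _ _ ?_⟩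
    show X.cyc X.frob ^ (w : ℤ) * χ (X.tr X.frob) *
      (X.cyc (X.tr X.frob) ^ (w : ℤ) * χ (X.tr (X.tr X.frob))) ≠ 1
    rw [X.tr_tr, X.cyc_tr, Units.val_inv_eq_inv_val, X.cyc_frob]
    have hqΩ : (q : Ω) ≠ 0 := Nat.cast_ne_zero.2 X.q_ne
    intro h
    apply hχ
    rw [← h]
    have h5 : (q : Ω) ^ (w : ℤ) * ((q : Ω)⁻¹) ^ (w : ℤ) = 1 := by
      rw [← mul_zpow, mul_inv_cancel₀ hqΩ, one_zpow]
    linear_combination -(χ X.frob * χ (X.tr X.frob)) * h5

/-- mw purity of `H^k` from the numerical conditions. -/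
theorem mw_numerical (X : Degeneration.{u, v} Ω Γ n q) (hq : IsPrimePow q)
    (hI : HasIntegralFrobenius X.toSpecialFibre) (A : DivisorClasses X.toSpecialFibre)
    {val : Ω → ℝ} (hv : IsSlopeFunction q val) (k : ℕ)
    {N : ℕ → ℕ} {β : ∀ j, Fin (N j) → Ω} {a : ∀ j, Fin (N j) → ℕ}
    (hβ : ∀ j, IsSpectrum (X.actV j X.frob) (β j)) (hN : ∀ j, NewtonAboveHodge val (β j) (a j))
    (hM : ∀ j, IntegralSlopes q val (β j))
    (hT : ∀ a : ℕ, a + 3 ≤ k → A.TateConj a)
    (hr : ∀ j, 3 ≤ j → j ≤ k → j + k ≤ 2 * n → IsRationalSpectrum (β j))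
    (hc : ∀ j, 3 ≤ j → j ≤ k → j + k ≤ 2 * n →
      2 * zeroCount (a j) < 2 + 2 * weightCount q (β j) 0 + weightCount q (β j) 1)
    (hc' : ∀ j, 4 ≤ j → j ≤ k → j + k ≤ 2 * n →
      ∑ i, (j - 2 * a j i) ≤ j * weightCount q (β j) 0 + (j - 1) * weightCount q (β j) 1 +
        (j - 2) * weightCount q (β j) 2) :
    IsMWPure q k (X.actV k X.frob) (X.N k) := by
  apply mw_all X hI A k hT
  intro j w α h1 h2 h3 h4 h5 hα hint hw
  by_cases hw2 : w = 2
  · subst hw2
    exact ⟨rfl, tate_deg X hq hv j (hβ j) (hr j h1 h2 h3) (hN j) (hM j) (hc j h1 h2 h3) hα hint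
      hw⟩
  · exfalso
    have h0 := count_eq_zero hq.one_lt hv (hr j h1 h2 h3) (hN j) (by omega)
      (hc' j (by omega) h2 h3) (w := (w : ℤ)) (by omega) (by omega)
    obtain ⟨i, hi⟩ := card_ne_zero_of_eigen X.toSemistableModel j (hβ j) hα
    have : Nonempty {i // IsWeilNumber q (w : ℤ) (β j i)} := ⟨⟨i, by rw [hi]; exact hw⟩⟩
    have h6 : weightCount q (β j) (w : ℤ) ≠ 0 := Nat.card_pos.ne'
    exact h6 h0

end Pool.Agent.T2H43.WM
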