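import Pool.Agent.X302.MW.Three

/-!
# Vanishing of a part of the second term of the weight spectral sequence
-/

namespace Pool.Agent.T2H43.WM

universe u v

open Module Pool.Agent.Y143 Pool.Agent.X302.MW

variable {Ω : Type u} [Field Ω] [CharZero Ω] {Γ : Type} {n q : ℕ}

/-- The part of character `χ` (simultaneous generalized eigenspace) of `E_2^(i, w)` is zero. -/
def VanishesAt (X : SpecialFibre.{u, v} Ω Γ n q) (i w : ℤ) (χ : Γ → Ω) : Prop :=
  ∀ x ∈ X.cocycles i w, x ∈ Wt (X.actC i) χ → x ∈ X.coboundaries i w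

section

variable [IsAlgClosed Ω] (X : Degeneration.{u, v} Ω Γ n q)

/-- If the dual character does not occur in `E_2^(i, w)`, then `N ^ i` is injective on the part of
character `χ` of `E_2^(-i, w + 2 i)`, which is zero. -/
lemma nInj_of_vanish (χ : Γ → Ω) (p : ℤ) (a m : ℕ) {w : ℤ} (hw : (n : ℤ) - m - ((a : ℤ) + 1) = w)
    (h : VanishesAt X.toSpecialFibre ((a : ℤ) + 1) w
      (dualAt X.toSpecialFibre w (chr X.cyc' χ n p ((a : ℤ) + 1) (-m)))) :
    NInj X.diff (X.cls χ p) ((a : ℤ) + 1) (-m) := by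
  have hG := X.cls_lefComplex χ p
  have hG' := X.cls_lefComplex (X.dualChar χ) (1 - p)
  have h1 := (X.cls_dual p χ).hh_neg hG hG' ((a : ℤ) + 1) (-m)
  have h2 : Zc X.diff (X.cls (X.dualChar χ) (1 - p)) ((a : ℤ) + 1) (-m) ≤
      Bd X.diff (X.cls (X.dualChar χ) (1 - p)) ((a : ℤ) + 1) (-m) := by
    intro x hx
    apply bd_cls X hx.1
    rw [bd_tot_eq, show (n : ℤ) + -(m : ℤ) - ((a : ℤ) + 1) = w by omega]
    apply h x
    · refine ⟨?_, hx.2⟩
      exact X.mem_E₁_cast rfl (by omega) hx.1.1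
    · have h3 := hx.1.2
      rw [SetLike.mem_coe, chr_dual X χ p ((a : ℤ) + 1) m hw] at h3
      exact h3
  have h3 : hh X.diff (X.cls (X.dualChar χ) (1 - p)) ((a : ℤ) + 1) (-m) ≤ 0 := by
    have := Submodule.finrank_mono h2
    unfold hh
    omega
  have h4 : Bd X.diff (X.cls χ p) (-((a : ℤ) + 1)) (-m) ≤
      Zc X.diff (X.cls χ p) (-((a : ℤ) + 1)) (-m) := hG.bd_le _ _
  have h5 : Bd X.diff (X.cls χ p) (-((a : ℤ) + 1)) (-m) =
      Zc X.diff (X.cls χ p) (-((a : ℤ) + 1)) (-m) := by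
    apply Submodule.eq_of_le_of_finrank_le h4
    unfold hh at h1 h3
    omega
  intro x hx
  rw [h5]
  exact hx.1

/-- `H^k` is mw pure if, in the weights `w ≥ 2` on the `Y^(a+2)` with `a + 1 + w ≤ min(k, 2 n - k)`,
every character is controlled or, together with its dual, does not occur in `E_2`. -/
theorem mw_vanish (A : DivisorClasses X.toSpecialFibre) (k : ℕ)
    (hA : ∀ (a w : ℕ) (χ : Γ → Ω), 2 ≤ w → a + 1 + w ≤ k → a + 1 + w + k ≤ 2 * n →
      ControlledAt A a w χ ∧ ControlledAt A a w (dualAt X.toSpecialFibre w χ) ∨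
      VanishesAt X.toSpecialFibre ((a : ℤ) + 1) w χ ∧
        VanishesAt X.toSpecialFibre ((a : ℤ) + 1) w (dualAt X.toSpecialFibre w χ)) :
    IsMWPure q k (X.actV k X.frob) (X.N k) := by
  set M := ((k : ℤ) - n).natAbs with hM
  have hP : ∀ (χ : Γ → Ω) (p : ℤ) (i : ℤ), 1 ≤ i → ∀ m : ℕ, M ≤ m →
      CritP X.diff X.lefC (X.cls χ p) (X.cls (X.dualChar χ) (1 - p)) i m := by
    intro χ p i hi m hm
    obtain ⟨a, ha⟩ := Int.eq_ofNat_of_zero_le (show 0 ≤ i - 1 by omega)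
    obtain rfl : i = (a : ℤ) + 1 := by omega
    rcases lt_or_ge ((n : ℤ) - m - ((a : ℤ) + 1)) 2 with hw | hw
    · exact Or.inl ⟨critI_low X A χ p a m hw, critI_low X A _ _ a m hw⟩
    obtain ⟨w, hw'⟩ := Int.eq_ofNat_of_zero_le (show 0 ≤ (n : ℤ) - m - ((a : ℤ) + 1) by omega)
    have h2 : 2 ≤ w := by omega
    have hdual := chr_dual X χ p ((a : ℤ) + 1) m hw'
    rcases hA a w (chr X.cyc' χ n p ((a : ℤ) + 1) (-m)) h2 (by omega) (by omega) with h | h
    · obtain ⟨h1, h1'⟩ := h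
      rw [← hdual] at h1'
      rcases crit_of_controlled X A χ p a m w (by omega) hw' h1 with h | h | h
      · rcases crit_of_controlled X A (X.dualChar χ) (1 - p) a m w (by omega) hw' h1' with
          h' | h' | h'
        · exact Or.inl ⟨h, h'⟩
        · exact Or.inr (Or.inr h')
        · rw [hdual, dualAt_dualAt] at h'
          exact Or.inr (Or.inl (critS_of_covered X χ p a m w hw' h'))
      · exact Or.inr (Or.inl h)
      · rw [← hdual] at h
        exact Or.inr (Or.inr (critS_of_covered X _ _ a m w hw' h))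
    · left
      refine ⟨Or.inl (nInj_of_vanish X χ p a m hw' h.2), Or.inl (nInj_of_vanish X _ _ a m hw' ?_)⟩
      rw [hdual, dualAt_dualAt]
      exact h.1
  have hgood : ∀ (χ : Γ → Ω) (p i j : ℤ), 1 ≤ i → (M : ℤ) ≤ |j| →
      Good2 X.diff (X.cls χ p) (X.cls (X.dualChar χ) (1 - p)) i j := fun χ p i j hi hj =>
    good (X.cls_dual p χ) (X.cls_lefComplex χ p) (X.cls_lefComplex (X.dualChar χ) (1 - p)) M
      (fun i hi m hm => hP χ p i hi m hm) i j hi hj
  apply X.toSemistableModel.isMWPure_of k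
  · intro a ha
    have hi : (1 : ℤ) ≤ a := by exact_mod_cast ha
    have hj : (M : ℤ) ≤ |(k : ℤ) - n| := by rw [Int.abs_eq_natAbs]
    show NInj X.diff X.tot a ((k : ℤ) - n)
    rintro x ⟨hx1, hx2⟩
    apply mem_of_prj_mem (X.sym.comm (-(a : ℤ)))
    intro μ
    obtain ⟨χ, hχ⟩ := exists_chr X μ (-(a : ℤ)) ((k : ℤ) - n)
    have h1 := X.sym.prj_zc χ n 0 hx1
    have h2 := X.sym.prj_bd χ n 0 hx2
    have h3 := (hgood χ 0 a ((k : ℤ) - n) hi hj).inj
    have h4 : prj (X.actC (-(a : ℤ))) (X.sym.comm (-(a : ℤ))) μ x =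
        prj (X.actC a) (X.sym.comm a) (chr X.cyc' χ n 0 a ((k : ℤ) - n)) x := by
      have h5 := prj_equiv (X.sym.comm a) (X.sym.comm (-(a : ℤ))) (c := fun g => X.cyc' g ^ (a : ℤ))
        (fun g => zpow_ne_zero _ (X.cyc'_ne g)) (1 : Module.End Ω X.C)
        (fun g x => by
          have := X.sym.shift a a g x
          rwa [show (a : ℤ) - 2 * a = -a by ring] at this) (chr X.cyc' χ n 0 a ((k : ℤ) - n)) x
      rw [← chr_neg X.cyc'_ne, hχ] at h5
      exact h5
    rw [hχ] at h1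
    have h6 : prj (X.actC (-(a : ℤ))) (X.sym.comm (-(a : ℤ))) μ x ∈
        Bd X.diff (X.cls χ 0) (-(a : ℤ)) ((k : ℤ) - n) := by
      apply h3
      refine ⟨h1, ?_⟩
      rw [h4]
      exact h2
    exact Sym.bd_cl_le χ n 0 _ _ h6
  · intro a ha
    have hi : (1 : ℤ) ≤ a := by exact_mod_cast ha
    have hj : (M : ℤ) ≤ |(k : ℤ) - n| := by rw [Int.abs_eq_natAbs]
    show NSurj X.diff X.tot a ((k : ℤ) - n)
    intro y hy
    apply mem_of_prj_mem (X.sym.comm (a : ℤ))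
    intro μ
    obtain ⟨χ, hχ⟩ := exists_chr X μ a ((k : ℤ) - n)
    have h1 := X.sym.prj_zc χ n 0 hy
    rw [hχ] at h1
    have h3 := (hgood χ 0 a ((k : ℤ) - n) hi hj).surj
    obtain ⟨u, hu, v, hv, huv⟩ := Submodule.mem_sup.1 (h3 h1)
    exact Submodule.mem_sup.2 ⟨u, Sym.zc_cl_le χ n 0 _ _ hu, v, Sym.bd_cl_le χ n 0 _ _ hv, huv⟩

end

end Pool.Agent.T2H43.WM
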